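import Pool.Agent.P.MP_eb0bd2_lc.A.Tree

set_option autoImplicit false
set_option linter.unusedSectionVars false

namespace Pool.Agent.P.MP_eb0bd2_lc.A

open Finset Relation

namespace MG

variable {V E : Type} {G : MG V E} [DecidableEq V] [DecidableEq E]

variable (G) in
/-- The frame or its reverse. -/
def dir : Bool → MG V E
  | true => G
  | false => G.rev

@[simp] theorem dir_Vs (b : Bool) : (G.dir b).Vs = G.Vs := by cases b <;> rfl

theorem WF.dir {A : Finset E} (h : G.WF A) (b : Bool) : (G.dir b).WF A := by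
  cases b
  exacts [h.rev, h]

theorem dir_inc (b : Bool) (e : E) (u : V) :
    ((G.dir b).src e = u ∨ (G.dir b).tgt e = u) ↔ (G.src e = u ∨ G.tgt e = u) := by
  cases b
  exacts [or_comm, Iff.rfl]

variable (G) in
/-- Arc sets, disjoint for conflicting indices, each reaching everything from its root in its
direction. -/
def GP (A : Finset E) (q : ℕ → Bool × V) (cf : ℕ → ℕ → Prop) (m : ℕ) : Prop :=
  ∃ H : ℕ → Finset E, (∀ j < m, H j ⊆ A ∧ ∀ v ∈ G.Vs, (G.dir (q j).1).Reach (H j) (q j).2 v) ∧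
    ∀ i < m, ∀ j < m, i ≠ j → cf i j → Disjoint (H i) (H j)

variable (G) in
/-- Percolation from `X` reaches all vertices. -/
def Perc (c r : ℕ) (A Φ : Finset E) (X : Finset V) : Prop :=
  ∃ ρ : V → ℕ, ∀ v ∈ G.Vs, v ∈ X ∨
    c ≤ (A.filter fun e => G.tgt e = v ∧ ρ (G.src e) < ρ v).card ∨
    r ≤ ((A ∩ Φ).filter fun e => G.tgt e = v ∧ ρ (G.src e) < ρ v).card

/-- The list `D` consists of the demands between the roots and the vertices of `X`. -/
def Dem (q : ℕ → Bool × V) (m : ℕ) (X : Finset V) (D : List (ℕ × V × V)) : Prop :=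
  ∀ p, p ∈ D ↔ p.1 < m ∧ ∃ x ∈ X, p.2 = if (q p.1).1 then ((q p.1).2, x) else (x, (q p.1).2)

/-- The demands number `i` and `j` may share arcs. -/
def Sh (cf : ℕ → ℕ → Prop) (D : List (ℕ × V × V)) (i j : ℕ) : Prop :=
  (D.map Prod.fst).getD i 0 = (D.map Prod.fst).getD j 0 ∨
    ¬ cf ((D.map Prod.fst).getD i 0) ((D.map Prod.fst).getD j 0)

variable (G) in
/-- The reduced problem. -/
def Red (c r : ℕ) (A : Finset E) (cf : ℕ → ℕ → Prop) (X : Finset V) (Φ : Finset E)
    (D : List (ℕ × V × V)) (d : V × V) : Prop :=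
  G.Perc c r A Φ X ∧ G.rev.Perc c r A Φ X ∧ G.CF (A \ Φ) (fun i => (D.map Prod.snd).getD i d)
    (fun i j _ => Sh cf D i j) (range (D.map Prod.snd).length)

theorem exists_thin {H : Finset E} {s : V} (X : Finset V) (h : ∀ x ∈ X, G.Reach H s x) :
    ∃ T ⊆ H, (∀ x ∈ X, G.Reach T s x) ∧ G.Deg T (X.card * 2) := by
  have : ∀ x, ∃ l, x ∈ X → G.Walk s x l ∧ (∀ e ∈ l, e ∈ H) ∧ (G.verts s l).Nodup := by
    intro x
    by_cases hx : x ∈ X
    · obtain ⟨l, hl⟩ := (h x hx).exists_simple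
      exact ⟨l, fun _ => hl⟩
    · exact ⟨[], fun h => absurd h hx⟩
  choose P hP using this
  exact ⟨X.biUnion fun x => (P x).toFinset, biUnion_subset.2 fun x hx e he =>
    (hP x hx).2.1 e (List.mem_toFinset.1 he), fun x hx => (hP x hx).1.reach.mono
      (subset_biUnion_of_mem (fun x => (P x).toFinset) hx),
    deg_biUnion fun x hx => (hP x hx).1.deg (hP x hx).2.2⟩

theorem opt_le (A T : Finset E) (ρ : V → ℕ) (v : V) :
    (A.filter fun e => G.tgt e = v ∧ ρ (G.src e) < ρ v).card ≤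
      ((A \ T).filter fun e => G.tgt e = v ∧ ρ (G.src e) < ρ v).card +
        (T.filter fun e => G.src e = v ∨ G.tgt e = v).card := by
  refine le_trans (card_le_card fun e he => ?_) (card_union_le _ _)
  simp only [mem_union, mem_filter, mem_sdiff] at he ⊢
  tauto

theorem Perc.options {c r d : ℕ} {A Φ T : Finset E} {X : Finset V} (h : G.Perc c r A Φ X)
    (hT : Disjoint T Φ) (hd : G.Deg T d) (hc : d + r ≤ c) : ∃ ρ : V → ℕ, ∀ v ∈ G.Vs, v ∉ X →
      r ≤ ((A \ T).filter fun e => G.tgt e = v ∧ ρ (G.src e) < ρ v).card := by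
  obtain ⟨ρ, hρ⟩ := h
  refine ⟨ρ, fun v hv hX => ?_⟩
  rcases (hρ v hv).resolve_left hX with a | a
  · have b1 := opt_le (G := G) A T ρ v
    have b2 := hd v
    omega
  · refine a.trans (card_le_card (filter_subset_filter _ fun e he => ?_))
    exact mem_sdiff.2 ⟨(mem_inter.1 he).1, fun b => disjoint_left.1 hT b (mem_inter.1 he).2⟩

theorem Deg.dir {T : Finset E} {d : ℕ} (b : Bool) : (G.dir b).Deg T d ↔ G.Deg T d := by
  simp only [Deg, dir_inc]

theorem reach_of_choice {H : Finset E} {s : V} {X : Finset V} (ρ : V → ℕ) (hW : G.WF H)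
    (h1 : ∀ x ∈ X, G.Reach H s x)
    (h2 : ∀ v ∈ G.Vs, v ∉ X → ∃ e ∈ H, G.tgt e = v ∧ ρ (G.src e) < ρ v) :
    ∀ v ∈ G.Vs, G.Reach H s v := by
  suffices ∀ n, ∀ v ∈ G.Vs, ρ v = n → G.Reach H s v from fun v hv => this _ v hv rfl
  intro n
  induction n using Nat.strong_induction_on with
  | _ n ih =>
    intro v hv hn
    by_cases hX : v ∈ X
    · exact h1 v hX
    obtain ⟨e, he, rfl, a⟩ := h2 v hv hX
    exact (ih _ (hn ▸ a) _ (hW e he).1 rfl).trans (Reach.single he)

theorem exists_sdr {ι : Type} (P : Finset ι) (op : ι → Finset E) {r : ℕ} (hr : 0 < r)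
    (h1 : ∀ p ∈ P, r ≤ (op p).card) (h2 : ∀ e, (P.filter fun p => e ∈ op p).card ≤ r) :
    ∃ z : P → E, Function.Injective z ∧ ∀ p, z p ∈ op p.1 := by
  classical
  refine (all_card_le_biUnion_card_iff_exists_injective fun p : P => op p.1).1 fun J => ?_
  refine Nat.le_of_mul_le_mul_right (card_mul_le_card_mul (s := J)
    (t := J.biUnion fun p : P => op p.1) (m := r) (n := r) (fun j e => e ∈ op j.1)
    (fun j hj => ?_) fun e _ => ?_) hr
  · exact (h1 j.1 j.2).trans (card_le_card fun e he =>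
      (mem_bipartiteAbove _).2 ⟨mem_biUnion.2 ⟨j, hj, he⟩, he⟩)
  · exact le_trans (card_le_card_of_injOn Subtype.val (fun p hp => mem_coe.2 (mem_filter.2
      ⟨p.2, ((mem_bipartiteBelow _).1 hp).2⟩)) Subtype.val_injective.injOn) (h2 e)

theorem Red.gp {c r x m : ℕ} {A : Finset E} (hW : G.WF A) {q : ℕ → Bool × V} {X : Finset V}
    {Φ : Finset E} {D : List (ℕ × V × V)} {d : V × V} {cf : ℕ → ℕ → Prop}
    (h : G.Red c r A cf X Φ D d) (hD : Dem q m X D) (hX : X.card ≤ x) (hm : m ≤ r) (hr : 0 < r)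
    (hc : r * (x * 2) + r ≤ c) : G.GP A q cf m := by
  obtain ⟨p1, p2, F, f1, f2⟩ := h
  let H : ℕ → Finset E := fun j =>
    ((range (D.map Prod.snd).length).filter fun i => (D.map Prod.fst).getD i 0 = j).biUnion F
  have k1 : ∀ j, H j ⊆ A \ Φ := fun j => biUnion_subset.2 fun i hi => (f1 i (mem_filter.1 hi).1).1
  have dH : ∀ i j, i ≠ j → cf i j → Disjoint (H i) (H j) :=
    fun i j hij hcf => disjoint_left.2 fun e a b => by
      obtain ⟨i', a1, a2⟩ := mem_biUnion.1 a
      obtain ⟨j', b1, b2⟩ := mem_biUnion.1 b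
      have := f2 i' (mem_filter.1 a1).1 j' (mem_filter.1 b1).1 (by
        rintro rfl
        exact hij ((mem_filter.1 a1).2.symm.trans (mem_filter.1 b1).2)) e a2 b2
      simp only [Sh] at this
      rw [(mem_filter.1 a1).2, (mem_filter.1 b1).2] at this
      exact this.elim hij fun f => f hcf
  have r0 : ∀ j u v, (j, u, v) ∈ D → G.Reach (H j) u v := fun j u v h => by
    obtain ⟨i, hi, e⟩ := List.getElem_of_mem h
    have hi' : i ∈ range (D.map Prod.snd).length := by simpa using hi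
    have := (f1 i hi').2
    simp only [List.getD_eq_getElem?_getD, List.getElem?_map, List.getElem?_eq_getElem hi, e,
      Option.map_some, Option.getD_some] at this
    refine this.mono (subset_biUnion_of_mem F (mem_filter.2 ⟨hi', ?_⟩))
    simp only [List.getD_eq_getElem?_getD, List.getElem?_map, List.getElem?_eq_getElem hi, e,
      Option.map_some, Option.getD_some]
  have r1 : ∀ j, ∃ T ⊆ H j, j < m → (∀ x ∈ X, (G.dir (q j).1).Reach T (q j).2 x) ∧
      G.Deg T (X.card * 2) := fun j => by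
    by_cases hj : j < m
    · obtain ⟨T, a1, a2, a3⟩ := exists_thin (G := G.dir (q j).1) (H := H j) (s := (q j).2) X
        fun x hx => by
          have := (hD (j, if (q j).1 then ((q j).2, x) else (x, (q j).2))).2 ⟨hj, x, hx, rfl⟩
          revert this
          cases (q j).1
          exacts [fun h => (r0 j _ _ h).rev, r0 j _ _]
      exact ⟨T, a1, fun _ => ⟨a2, (Deg.dir _).1 a3⟩⟩
    · exact ⟨∅, empty_subset _, fun h => absurd h hj⟩
  choose T s1 t1 using r1
  have dU : G.Deg ((range m).biUnion T) (r * (x * 2)) :=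
    (deg_biUnion fun j hj => (t1 j (mem_range.1 hj)).2).of_le (by rw [card_range]; gcongr)
  have dΦ : Disjoint ((range m).biUnion T) Φ := (disjoint_biUnion_left _ _ _).2 fun j _ =>
    Disjoint.mono_left ((s1 j).trans (k1 j)) sdiff_disjoint
  have pp : ∀ b, (G.dir b).Perc c r A Φ X := fun b => by
    cases b
    exacts [p2, p1]
  choose ρ o using fun b => (pp b).options dΦ ((Deg.dir b).2 dU) hc
  obtain ⟨P, hP⟩ : ∃ P : Finset (ℕ × V), ∀ p, p ∈ P ↔ p.1 < m ∧ p.2 ∈ G.Vs ∧ p.2 ∉ X :=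
    ⟨range m ×ˢ (G.Vs \ X), fun p => by simp⟩
  obtain ⟨z, hz, hm'⟩ := exists_sdr P (fun p =>
    (A \ (range m).biUnion T).filter fun e => (G.dir (q p.1).1).tgt e = p.2 ∧
      ρ (q p.1).1 ((G.dir (q p.1).1).src e) < ρ (q p.1).1 p.2) hr
    (fun p hp => o _ _ (by simpa using ((hP p).1 hp).2.1) ((hP p).1 hp).2.2) fun e => by
      refine le_trans (card_le_card_of_injOn (t := range m) Prod.fst
        (fun p hp => mem_coe.2 (mem_range.2 ((hP p).1 (mem_filter.1 hp).1).1)) ?_)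
        (by simpa using hm)
      rintro ⟨i, v⟩ a ⟨j, w⟩ b (rfl : i = j)
      have a := (mem_filter.1 (mem_filter.1 a).2).2.1
      have b := (mem_filter.1 (mem_filter.1 b).2).2.1
      exact Prod.ext rfl (a.symm.trans b)
  have n1 : ∀ p, z p ∈ A \ (range m).biUnion T := fun p => (mem_filter.1 (hm' p)).1
  obtain ⟨Z, hZ⟩ : ∃ Z : ℕ → Finset E, ∀ j e, e ∈ Z j ↔ ∃ p : P, p.1.1 = j ∧ z p = e :=
    ⟨fun j => (univ.filter fun p : P => p.1.1 = j).image z, fun j e => by
      simp only [mem_image, mem_filter, mem_univ, true_and]⟩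
  have u1 : ∀ j, T j ∪ Z j ⊆ A := fun j =>
    union_subset (fun e he => (mem_sdiff.1 (k1 j (s1 j he))).1) fun e he => by
      obtain ⟨v, -, rfl⟩ := (hZ j e).1 he
      exact (mem_sdiff.1 (n1 v)).1
  refine ⟨fun j => T j ∪ Z j, fun j hj => ⟨u1 j, ?_⟩,
    fun i hi j hj hij hcf => disjoint_left.2 fun e a b => ?_⟩
  · intro v hv
    refine reach_of_choice (G := G.dir (q j).1) (X := X) (ρ (q j).1) ((hW.mono (u1 j)).dir _)
      (fun x hx => ((t1 j hj).1 x hx).mono subset_union_left) (fun v hv hX => ?_) v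
      (by simpa using hv)
    have hp : (j, v) ∈ P := (hP _).2 ⟨hj, by simpa using hv, hX⟩
    exact ⟨z ⟨(j, v), hp⟩, mem_union_right _ ((hZ _ _).2 ⟨_, rfl, rfl⟩),
      (mem_filter.1 (hm' ⟨(j, v), hp⟩)).2⟩
  · rcases mem_union.1 a with a | a <;> rcases mem_union.1 b with b | b
    · exact disjoint_left.1 (dH i j hij hcf) (s1 i a) (s1 j b)
    · obtain ⟨w, -, rfl⟩ := (hZ _ _).1 b
      exact (mem_sdiff.1 (n1 w)).2 (mem_biUnion.2 ⟨i, mem_range.2 hi, a⟩)
    · obtain ⟨w, -, rfl⟩ := (hZ _ _).1 a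
      exact (mem_sdiff.1 (n1 w)).2 (mem_biUnion.2 ⟨j, mem_range.2 hj, b⟩)
    · obtain ⟨v, v1, v2⟩ := (hZ _ _).1 a
      obtain ⟨w, w1, w2⟩ := (hZ _ _).1 b
      exact hij (by rw [← v1, ← w1, hz (v2.trans w2.symm)])

theorem perc_side {a c r : ℕ} {A T : Finset E} {ρ : V → ℕ} {X : Finset V}
    (hρ : ∀ f, (G.Vs.filter fun v =>
      (A.filter fun e => G.tgt e = v ∧ ρ (G.src e) < ρ v).card ≤ f).card ≤ a * (2 * f + 0 + 1))
    (hX : ∀ v ∈ G.Vs, v ∉ X →
      r ≤ ((A \ T).filter fun e => G.tgt e = v ∧ ρ (G.src e) < ρ v).card) :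
    ∃ Φ : Finset E, Φ ⊆ A \ T ∧ Φ.card ≤ a * (2 * c + 1) * c ∧
      ∀ Ψ, Φ ⊆ Ψ → G.Perc c r A Ψ X := by
  refine ⟨(G.Vs.filter fun v => (A.filter fun e => G.tgt e = v ∧ ρ (G.src e) < ρ v).card ≤ c
    ).biUnion fun v => (A \ T).filter fun e => G.tgt e = v ∧ ρ (G.src e) < ρ v,
    biUnion_subset.2 fun v _ => filter_subset _ _, ?_, fun Ψ hΨ => ⟨ρ, fun v hv => ?_⟩⟩
  · refine (card_biUnion_le_card_mul _ _ c fun v hv =>
      (card_le_card (filter_subset_filter _ sdiff_subset)).trans (mem_filter.1 hv).2).trans ?_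
    exact Nat.mul_le_mul_right _ (hρ c)
  · by_cases e : v ∈ X
    · exact Or.inl e
    by_cases b : (A.filter fun e => G.tgt e = v ∧ ρ (G.src e) < ρ v).card ≤ c
    swap
    · exact Or.inr (Or.inl (by omega))
    refine Or.inr (Or.inr ((hX v hv e).trans (card_le_card fun e he => ?_)))
    have := mem_filter.1 he
    exact mem_filter.2 ⟨mem_inter.2 ⟨(mem_sdiff.1 this.1).1,
      hΨ (mem_biUnion.2 ⟨v, mem_filter.2 ⟨hv, b⟩, he⟩)⟩, this.2⟩

theorem rtg_swap {α : Type} {r : α → α → Prop} {a b : α} (h : ReflTransGen r a b) :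
    ReflTransGen (fun x y => r y x) b a := by
  induction h with
  | refl => exact .refl
  | tail _ h ih => exact .head h ih

theorem GP.red [Nonempty E] {a r m : ℕ} {A : Finset E} (hW : G.WF A) (hA : G.Rob a A 0)
    {q : ℕ → Bool × V} {cf : ℕ → ℕ → Prop} (hm : m ≤ r) (hr : 0 < r) (c : ℕ)
    (h : G.GP A q cf m) : ∃ (X : Finset V) (Φ : Finset E), X ⊆ G.Vs ∧
      X.card ≤ 4 * (a * (2 * (r + r * (2 * r + 1)) + 1)) ∧ Φ ⊆ A ∧
      Φ.card ≤ 2 * (a * (2 * c + 1) * c) ∧
      ∀ D d, Dem q m X D → G.Red c r A cf X Φ D d := by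
  obtain ⟨H, s1, dH⟩ := h
  have hex : ∀ j, ∃ Tr : Finset V → Finset E, (∀ X Y, X ⊆ Y → Tr X ⊆ Tr Y) ∧ (j < m →
      (∀ X, Tr X ⊆ H j) ∧ (∀ X ⊆ G.Vs, ∀ x ∈ X, (G.dir (q j).1).Reach (Tr X) (q j).2 x) ∧
      ∀ X k, k * (G.Vs.filter fun u =>
        k + 2 ≤ ((Tr X).filter fun e => G.src e = u ∨ G.tgt e = u).card).card ≤ X.card) := by
    intro j
    by_cases hj : j < m
    · obtain ⟨Tr, a1, a2, a3, a4⟩ := exists_subtrees ((hW.mono (s1 j hj).1).dir (q j).1)
        (s := (q j).2) (by simpa using (s1 j hj).2)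
      simp only [dir_Vs, dir_inc] at a3 a4
      exact ⟨Tr, a1, fun _ => ⟨a2, a3, a4⟩⟩
    · exact ⟨fun _ => ∅, fun _ _ _ => Subset.rfl, fun h => absurd h hj⟩
  choose T m1 t1 using hex
  have hA' : ∀ b, (G.dir b).Rob a A 0 := fun b => by
    cases b
    exacts [hA.rev, hA]
  choose ρ o using fun b => (hA' b).exists_order
  let f : Finset V → Finset V := fun Y => G.Vs.filter fun v => ∃ b,
    ((A \ (range m).biUnion fun j => T j Y).filter fun e =>
      (G.dir b).tgt e = v ∧ ρ b ((G.dir b).src e) < ρ b v).card < r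
  have g1 : ∀ Y Y', Y ⊆ Y' → f Y ⊆ f Y' := fun Y Y' h v hv => mem_filter.2 ⟨(mem_filter.1 hv).1,
    (mem_filter.1 hv).2.imp fun b => lt_of_le_of_lt (card_le_card (filter_subset_filter _
      (sdiff_subset_sdiff Subset.rfl (biUnion_mono fun j _ => m1 j _ _ h))))⟩
  obtain ⟨X, hX, hmax⟩ := exists_max_image (G.Vs.powerset.filter fun X => X ⊆ f X) card
    ⟨∅, by simp⟩
  obtain ⟨hXV, hX⟩ : X ⊆ G.Vs ∧ X ⊆ f X := by simpa using hX
  have eX : X = f X := eq_of_subset_of_card_le hX (hmax _ (mem_filter.2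
    ⟨mem_powerset.2 (filter_subset _ _), g1 _ _ hX⟩))
  have cX : X.card ≤ 4 * (a * (2 * (r + r * (2 * r + 1)) + 1)) := by
    let Hv := (range m).biUnion fun j => G.Vs.filter fun u =>
      2 * r + 2 ≤ ((T j X).filter fun e => G.src e = u ∨ G.tgt e = u).card
    have b1 : 2 * r * Hv.card ≤ r * X.card := by
      refine le_trans (Nat.mul_le_mul_left _ card_biUnion_le) ?_
      rw [mul_sum]
      refine (sum_le_card_nsmul _ _ X.card fun j hj => (t1 j (mem_range.1 hj)).2.2 X _).trans ?_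
      rw [card_range, smul_eq_mul]
      gcongr
    have b2 : 2 * Hv.card ≤ X.card :=
      Nat.le_of_mul_le_mul_left (by rw [← mul_assoc, mul_comm r 2]; exact b1) hr
    have b3 : X ⊆ Hv ∪ (univ : Finset Bool).biUnion fun b => (G.dir b).Vs.filter fun v =>
        (A.filter fun e => (G.dir b).tgt e = v ∧ ρ b ((G.dir b).src e) < ρ b v).card ≤
          r + r * (2 * r + 1) := by
      intro v hv
      obtain ⟨a1, b, a2⟩ := mem_filter.1 (hX hv)
      refine mem_union.2 (or_iff_not_imp_left.2 fun a3 =>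
        mem_biUnion.2 ⟨b, mem_univ _, mem_filter.2 ⟨by simpa using a1, ?_⟩⟩)
      have a4 := opt_le (G := G.dir b) A ((range m).biUnion fun j => T j X) (ρ b) v
      have a5 : (((range m).biUnion fun j => T j X).filter fun e =>
          (G.dir b).src e = v ∨ (G.dir b).tgt e = v).card ≤ r * (2 * r + 1) := by
        simp only [dir_inc]
        rw [filter_biUnion]
        refine (card_biUnion_le_card_mul _ _ (2 * r + 1) fun j hj => ?_).trans
          (by rw [card_range]; gcongr)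
        by_contra a6
        exact a3 (mem_biUnion.2 ⟨j, hj, mem_filter.2 ⟨a1, by omega⟩⟩)
      omega
    have b4 := (card_le_card b3).trans (card_union_le _ _)
    have b5 := card_biUnion_le_card_mul (univ : Finset Bool) _ _
      fun b _ => o b (r + r * (2 * r + 1))
    simp only [card_univ, Fintype.card_bool, add_zero] at b5
    omega
  choose Φ q1 q2 q3 using fun b => perc_side (G := G.dir b) (c := c) (r := r)
    (T := (range m).biUnion fun j => T j X) (X := X) (o b) fun v hv hv' => by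
      by_contra e
      exact hv' (eX ▸ mem_filter.2 ⟨by simpa using hv, b, by omega⟩)
  refine ⟨X, Φ true ∪ Φ false, hXV, cX,
    union_subset ((q1 _).trans sdiff_subset) ((q1 _).trans sdiff_subset),
    (card_union_le _ _).trans (by have := q2 true; have := q2 false; omega),
    fun D d hD => ⟨q3 true _ subset_union_left, q3 false _ subset_union_right, ?_⟩⟩
  have g : ∀ i ∈ range (D.map Prod.snd).length,
      ((D.map Prod.fst).getD i 0, (D.map Prod.snd).getD i d) ∈ D := fun i hi => by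
    have hi : i < D.length := by simpa using hi
    simp only [List.getD_eq_getElem?_getD, List.getElem?_map, List.getElem?_eq_getElem hi,
      Option.map_some, Option.getD_some]
    exact List.getElem_mem hi
  refine ⟨fun i => T ((D.map Prod.fst).getD i 0) X, fun i hi => ?_,
    fun i hi j hj _ e a b => or_iff_not_imp_left.2 fun n f => ?_⟩
  · obtain ⟨a1, x, hx, a2⟩ := (hD _).1 (g i hi)
    dsimp only at a1 a2 ⊢
    refine ⟨fun e he => mem_sdiff.2 ⟨(s1 _ a1).1 ((t1 _ a1).1 X he), fun b => ?_⟩, ?_⟩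
    · rcases mem_union.1 b with b | b <;>
        exact (mem_sdiff.1 (q1 _ b)).2 (mem_biUnion.2 ⟨_, mem_range.2 a1, he⟩)
    · have := (t1 _ a1).2.1 X hXV x hx
      rw [a2]
      revert this
      cases (q ((D.map Prod.fst).getD i 0)).1
      exacts [fun h => reach_rev_iff.1 h, id]
  · have a1 := ((hD _).1 (g i hi)).1
    have a2 := ((hD _).1 (g j hj)).1
    exact disjoint_left.1 (dH _ a1 _ a2 n f) ((t1 _ a1).1 X a) ((t1 _ a2).1 X b)

end MG

end Pool.Agent.P.MP_eb0bd2_lc.A
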