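import Pool.Agent.P.MP_eb0bd2_lc.PTLib
import Pool.Agent.P.MP_eb0bd2_lc.A.Reduce

set_option autoImplicit false

namespace Pool.Agent.P.MP_eb0bd2_lc.A

open Pool.Agent.Lib.PolyTime Relation Finset

theorem not_rich_iff {V E : Type} [DecidableEq E] {G : MG V E} {A : Finset E} {K : ℕ} {x y : V} :
    ¬ G.Rich A K x y ↔ ∃ L : List E, (L.length ≤ K ∧ ∀ e ∈ L, e ∈ A) ∧ L.length < K ∧
      ¬ ReflTransGen (fun u v => ∃ e ∈ A, e ∉ L ∧ G.src e = u ∧ G.tgt e = v) x y := by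
  constructor
  · intro h
    simp only [MG.Rich, not_forall, not_le] at h
    obtain ⟨S, h1, h2, h3⟩ := h
    refine ⟨(G.cut A S).toList, ⟨by simpa using h3.le, fun e he =>
      (MG.mem_cut.1 (mem_toList.1 he)).1⟩, by simpa using h3, fun h => h2 ?_⟩
    clear h2
    induction h with
    | refl => exact h1
    | tail _ h ih =>
      obtain ⟨e, a, b, rfl, rfl⟩ := h
      by_contra c
      exact b (mem_toList.2 (MG.mem_cut.2 ⟨a, ih, c⟩))
  · rintro ⟨L, -, h1, h2⟩ h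
    have := h {v | ReflTransGen (fun u v => ∃ e ∈ A, e ∉ L ∧ G.src e = u ∧ G.tgt e = v) x v}
      ReflTransGen.refl h2
    refine absurd (this.trans ((card_le_card fun e he => List.mem_toFinset.2 ?_).trans
      (List.toFinset_card_le L))) (by omega)
    obtain ⟨a, b, c⟩ := MG.mem_cut.1 he
    by_contra d
    exact c (ReflTransGen.tail b ⟨e, a, d, rfl, rfl⟩)

variable {α : Type} [N487b59b3 α]

theorem ptp_ex {β : Type} [N487b59b3 β] {l : α → List β} {p : α × β → Prop} (hl : PT l)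
    (hp : PTP p) : PTP fun a => ∃ x ∈ l a, p (a, x) :=
  PTP.exists_mem (p := fun a x => p (a, x)) hl hp

theorem ptp_rich (K : ℕ) (Vs : α → Finset ℕ) {A : α → List (ℕ × ℕ × ℕ)} {x y : α → ℕ} (hA : PT A)
    (hx : PT x) (hy : PT y) : PTP fun a => (std (Vs a)).Rich (A a).toFinset K (x a) (y a) := by
  have h : PTP fun q : α × List (ℕ × ℕ × ℕ) => ReflTransGen
      (fun u v => ∃ e ∈ A q.1, e ∉ q.2 ∧ e.2.1 = u ∧ e.2.2 = v) (x q.1) (y q.1) :=
    ptp_rtg (l := fun q => (A q.1).map fun e => e.2.2) (by fun_prop) (by fun_prop) (by fun_prop)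
      (PTP.exists_mem (by fun_prop) (by fun_prop))
      (by rintro a u v ⟨e, he, -, -, rfl⟩; exact List.mem_map_of_mem he)
  refine (ptp_short K (p := fun a L => L.length < K ∧ ¬ ReflTransGen
    (fun u v => ∃ e ∈ A a, e ∉ L ∧ e.2.1 = u ∧ e.2.2 = v) (x a) (y a)) hA
    (PTP.and (by fun_prop) h.not)).not.congr fun a => ?_
  rw [← not_iff_not, not_rich_iff]
  simp [and_assoc]

theorem pt_lvl (K : ℕ) {vs : α → List ℕ} {A : α → List (ℕ × ℕ × ℕ)} {x : α → ℕ} (hv : PT vs)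
    (hA : PT A) (hx : PT x) : PT fun a => lvl (vs a).toFinset (A a).toFinset K (x a) :=
  pt_card hv (ptp_rich K (fun q : α × ℕ => (vs q.1).toFinset) (by fun_prop) (by fun_prop)
    (by fun_prop))

theorem ptp_tele (K : ℕ) {vs : α → List ℕ} {A : α → List (ℕ × ℕ × ℕ)} {x y : α → ℕ} (hv : PT vs)
    (hA : PT A) (hx : PT x) (hy : PT y) :
    PTP fun a => Tele (vs a).toFinset (A a).toFinset K (x a) (y a) :=
  ((PTP.mem hv hx).and ((PTP.mem hv hy).and ((ptp_rich K (fun a => (vs a).toFinset) hA hx hy).and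
    (ptp_rich K (fun a => (vs a).toFinset) hA hy hx)))).congr fun a => by simp [Tele]

theorem ptp_col {R : α → List (ℕ × ℕ × ℕ)} {i x y : α → ℕ} (hR : PT R) (hi : PT i) (hx : PT x)
    (hy : PT y) : PTP fun a => ReflTransGen (Col (R a) (i a)) (x a) (y a) :=
  ptp_rtg (l := fun a => (R a).map fun e => e.2.2) (by fun_prop) hx hy (by unfold Col; fun_prop)
    fun _ _ _ h => List.mem_map.2 ⟨_, h, rfl⟩

/-- All coloured pairs. -/
def trip (k : ℕ) (vs : List ℕ) : List (ℕ × ℕ × ℕ) :=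
  (List.range k).flatMap fun i => vs.flatMap fun u => vs.map fun v => (i, u, v)

theorem mem_trip {k : ℕ} {vs : List ℕ} {p : ℕ × ℕ × ℕ} :
    p ∈ trip k vs ↔ p.1 < k ∧ p.2.1 ∈ vs ∧ p.2.2 ∈ vs := by
  obtain ⟨i, u, v⟩ := p
  simp [trip]

@[fun_prop] theorem pt_trip (k : ℕ) {vs : α → List ℕ} (hv : PT vs) : PT fun a => trip k (vs a) := by
  unfold trip; fun_prop

theorem short_iff {k B : ℕ} {vs : List ℕ} {R : List (ℕ × ℕ × ℕ)} :
    Short vs.toFinset k B R ↔ R ∈ tuples B (trip k vs) := by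
  simp [Short, mem_tuples, mem_trip]

theorem ptp_tab (k B : ℕ) {vs : α → List ℕ} {sh arc tele : α → ℕ → ℕ → Prop} {lv : α → ℕ → ℕ}
    {n : α → ℕ} (hv : PT vs) (hsh : PTP fun q : α × ℕ × ℕ => sh q.1 q.2.1 q.2.2)
    (harc : PTP fun q : α × ℕ × ℕ => arc q.1 q.2.1 q.2.2)
    (htele : PTP fun q : α × ℕ × ℕ => tele q.1 q.2.1 q.2.2) (hlv : PT fun q : α × ℕ => lv q.1 q.2)
    (hn : PT n) (hn' : Small n) : PTP fun q : α × List (ℕ × ℕ × ℕ) =>
      Tab (sh q.1) (vs q.1).toFinset k B (arc q.1) (tele q.1) (lv q.1) (n q.1) q.2 := by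
  have hV : PTP fun q : α × ℕ × List (ℕ × ℕ × ℕ) =>
      ValidN (sh q.1) (arc q.1) (tele q.1) (lv q.1) q.2.1 q.2.2 := by
    refine PTP.and (PTP.forall_mem (by fun_prop) (PTP.or
      (htele.comp (g := fun q : (α × ℕ × List (ℕ × ℕ × ℕ)) × ℕ × ℕ × ℕ => (q.1.1, q.2.2))
        (by fun_prop)) (PTP.and
      (harc.comp (g := fun q : (α × ℕ × List (ℕ × ℕ × ℕ)) × ℕ × ℕ × ℕ => (q.1.1, q.2.2))
        (by fun_prop)) (PTP.eq (PT.max
      (hlv.comp (g := fun q : (α × ℕ × List (ℕ × ℕ × ℕ)) × ℕ × ℕ × ℕ => (q.1.1, q.2.2.1))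
        (by fun_prop))
      (hlv.comp (g := fun q : (α × ℕ × List (ℕ × ℕ × ℕ)) × ℕ × ℕ × ℕ => (q.1.1, q.2.2.2))
        (by fun_prop))) (by fun_prop)))))
      (PTP.forall_mem (by fun_prop) (PTP.forall_mem (by fun_prop) (PTP.imp (by fun_prop)
        (PTP.or (PTP.or (by fun_prop) (hsh.comp
          (g := fun q : ((α × ℕ × List (ℕ × ℕ × ℕ)) × ℕ × ℕ × ℕ) × ℕ × ℕ × ℕ =>
            (q.1.1.1, q.1.2.1, q.2.1)) (by fun_prop))) (htele.comp (g := fun q : ((α × ℕ × List (ℕ × ℕ × ℕ)) × ℕ × ℕ × ℕ) ×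
          ℕ × ℕ × ℕ => (q.1.1.1, q.1.2.2)) (by fun_prop))))))
  refine ptp_iter (l := fun a => tuples B (trip k (vs a))) (s := fun _ => [[]])
    (Q := fun a σ S R' => ∃ R, S R ∧ ∃ N ∈ tuples B (trip k (vs a)),
      ValidN (sh a) (arc a) (tele a) (lv a) σ N ∧ ∀ p ∈ R', ReflTransGen (Col (R ++ N) p.1) p.2.1 p.2.2)
    (P := fun a => Tab (sh a) (vs a).toFinset k B (arc a) (tele a) (lv a)) (by fun_prop) (PT.const _)
    hn hn' (PTP.exists_mem (by fun_prop) (PTP.exists_mem (by fun_prop) (PTP.and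
      (hV.comp (g := fun q : ((α × List (List (ℕ × ℕ × ℕ)) × ℕ × List (ℕ × ℕ × ℕ)) ×
        List (ℕ × ℕ × ℕ)) × List (ℕ × ℕ × ℕ) => (q.1.1.1, q.1.1.2.2.1, q.2)) (by fun_prop))
      (PTP.forall_mem (by fun_prop) (ptp_col (by fun_prop) (by fun_prop) (by fun_prop)
        (by fun_prop))))))
    (fun _ _ => by simp [Tab]) fun _ _ _ => by simp only [Tab, short_iff]

/-- The dynamic program accepts. -/
def DPok (sh : ℕ → ℕ → Prop) (k K B : ℕ) (Vs : Finset ℕ) (A : Finset (ℕ × ℕ × ℕ)) (D : List (ℕ × ℕ)) (d : ℕ × ℕ) :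
    Prop :=
  ∃ R, Tab sh Vs k B (fun x y => (0, x, y) ∈ A) (Tele Vs A K) (lvl Vs A K) (Vs.card + 1) R ∧
    ∀ i < D.length, ReflTransGen (Col R i) (D.getD i d).1 (D.getD i d).2

theorem ptp_dpok (k K B : ℕ) {vs : α → List ℕ} {A : α → List (ℕ × ℕ × ℕ)} {D : α → List (ℕ × ℕ)}
    {d : α → ℕ × ℕ} {sh : α → ℕ → ℕ → Prop} (hv : PT vs) (hA : PT A) (hD : PT D) (hd : PT d)
    (hsh : PTP fun q : α × ℕ × ℕ => sh q.1 q.2.1 q.2.2) :
    PTP fun a => DPok (sh a) k K B (vs a).toFinset (A a).toFinset (D a) (d a) := by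
  have h1 : PT fun a => (vs a).toFinset.card + 1 :=
    ((pt_dedup hv).length.congr fun a => List.card_toFinset _).add (PT.const 1)
  have h2 : Small fun a => (vs a).toFinset.card + 1 :=
    ((Small.length hv).mono fun a => List.toFinset_card_le _).add (Small.const 1)
  have h := ptp_tab k B (arc := fun a x y => (0, x, y) ∈ (A a).toFinset)
    (tele := fun a => Tele (vs a).toFinset (A a).toFinset K)
    (lv := fun a => lvl (vs a).toFinset (A a).toFinset K) hv hsh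
    (by simp only [List.mem_toFinset]; fun_prop)
    (ptp_tele K (by fun_prop) (by fun_prop) (by fun_prop) (by fun_prop))
    (pt_lvl K (by fun_prop) (by fun_prop) (by fun_prop)) h1 h2
  refine (ptp_ex (l := fun a => tuples B (trip k (vs a))) (by fun_prop) (h.and
    (PTP.forall_mem (l := fun q : α × List (ℕ × ℕ × ℕ) => List.range (D q.1).length)
      (p := fun q i => ReflTransGen (Col q.2 i) ((D q.1).getD i (d q.1)).1
        ((D q.1).getD i (d q.1)).2) (by fun_prop)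
      (ptp_col (by fun_prop) (by fun_prop) (by fun_prop) (by fun_prop))))).congr fun a => ?_
  simp only [DPok, List.mem_range, ← short_iff]
  exact ⟨fun ⟨R, a, b⟩ => ⟨R, a.1, a, b⟩, fun ⟨R, _, a⟩ => ⟨R, a⟩⟩

theorem ptp_perc (c r : ℕ) {G : α → MG ℕ (ℕ × ℕ × ℕ)} {vs X : α → List ℕ} {A Φ : α → List (ℕ × ℕ × ℕ)}
    (hv : PT vs) (hX : PT X) (hA : PT A) (hΦ : PT Φ) (hG : ∀ a, (G a).Vs = (vs a).toFinset)
    (hs : PT fun q : α × ℕ × ℕ × ℕ => (G q.1).src q.2)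
    (ht : PT fun q : α × ℕ × ℕ × ℕ => (G q.1).tgt q.2) (hW : ∀ a, (G a).WF (A a).toFinset) :
    PTP fun a => (G a).Perc c r (A a).toFinset (Φ a).toFinset (X a).toFinset := by
  classical
  have hs' : PT fun q : (α × List ℕ × ℕ) × ℕ × ℕ × ℕ => (G q.1.1).src q.2 :=
    hs.comp (g := fun q : (α × List ℕ × ℕ) × ℕ × ℕ × ℕ => (q.1.1, q.2)) (by fun_prop)
  have ht' : PT fun q : (α × List ℕ × ℕ) × ℕ × ℕ × ℕ => (G q.1.1).tgt q.2 :=
    ht.comp (g := fun q : (α × List ℕ × ℕ) × ℕ × ℕ × ℕ => (q.1.1, q.2)) (by fun_prop)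
  refine (ptp_rank (Q := fun a S v => v ∈ X a ∨
    c ≤ ((A a).toFinset.filter fun e => (G a).tgt e = v ∧ S ((G a).src e)).card ∨
    r ≤ ((A a).toFinset.filter fun e => e ∈ Φ a ∧ (G a).tgt e = v ∧ S ((G a).src e)).card) hv
    (PTP.or (by fun_prop) (PTP.or (PTP.le (PT.const _) (pt_card (by fun_prop) (by fun_prop)))
      (PTP.le (PT.const _) (pt_card (by fun_prop) (by fun_prop)))))
    fun a S S' x h => Or.imp_right (Or.imp (·.trans (card_le_card fun e he => ?_))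
      (·.trans (card_le_card fun e he => ?_)))).congr fun a => ?_
  · rw [mem_filter] at he ⊢
    exact ⟨he.1, he.2.1, h _ (by simpa [hG] using (hW a e he.1).1) he.2.2⟩
  · rw [mem_filter] at he ⊢
    exact ⟨he.1, he.2.1, he.2.2.1, h _ (by simpa [hG] using (hW a e he.1).1) he.2.2.2⟩
  · refine exists_congr fun ρ => forall_congr' fun v => imp_congr (by simp [hG]) (or_congr (by simp)
      (or_congr ?_ ?_)) <;> rw [iff_iff_eq] <;> congr 2 <;> ext e <;> simp [and_assoc]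

end Pool.Agent.P.MP_eb0bd2_lc.A
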