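import Pool.Agent.P.MP_eb0bd2_lc.A.Rich

set_option autoImplicit false
set_option linter.unusedSectionVars false

namespace Pool.Agent.P.MP_eb0bd2_lc.A

open Finset

theorem rtg_of_forall {V : Type} {r s : V → V → Prop} (h : ∀ a b, r a b → Relation.ReflTransGen s a b)
    {x y : V} (hxy : Relation.ReflTransGen r x y) : Relation.ReflTransGen s x y := by
  induction hxy with
  | refl => exact Relation.ReflTransGen.refl
  | tail _ h' ih => exact ih.trans (h _ _ h')

theorem rtg_mono {V : Type} {r s : V → V → Prop} {x y : V} (hxy : Relation.ReflTransGen r x y)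
    (h : ∀ a b, r a b → s a b) : Relation.ReflTransGen s x y :=
  rtg_of_forall (fun a b hab => Relation.ReflTransGen.single (h a b hab)) hxy

/-- Dilworth's theorem for a preorder, through Hall's theorem. -/
theorem exists_chains {V : Type} {r : V → V → Prop} (htrans : ∀ x y z, r x y → r y z → r x z)
    (Y : Finset V) (w : ℕ) (hw : ∀ X ⊆ Y, w < X.card → ∃ x ∈ X, ∃ y ∈ X, x ≠ y ∧ r x y) :
    ∃ ch : V → ℕ, (∀ y ∈ Y, ch y < w) ∧
      ∀ x ∈ Y, ∀ y ∈ Y, ch x = ch y → x = y ∨ r x y ∨ r y x := by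
  classical
  let ix : Y → ℕ := fun y => (Fintype.equivFin Y y).1
  have hix : Function.Injective ix := fun x y e => (Fintype.equivFin Y).injective (Fin.ext e)
  let lt : Y → Y → Prop := fun x y => r x y ∧ (¬ r y x ∨ ix x < ix y)
  have l1 : ∀ x, ¬ lt x x := fun x h => h.2.elim (fun e => e h.1) (lt_irrefl _)
  have l2 : ∀ x y z, lt x y → lt y z → lt x z := fun x y z h h' =>
    ⟨htrans _ _ _ h.1 h'.1, by
      by_cases e : r z x
      · exact Or.inr ((h.2.resolve_left fun f => f (htrans _ _ _ h'.1 e)).trans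
          (h'.2.resolve_left fun f => f (htrans _ _ _ e h.1)))
      · exact Or.inl e⟩
  have l3 : ∀ x y : Y, x ≠ y → r x y → lt x y ∨ lt y x := fun x y hne h => by
    by_cases e : r y x
    · rcases lt_trichotomy (ix x) (ix y) with f | f | f
      · exact Or.inl ⟨h, Or.inr f⟩
      · exact absurd (hix f) hne
      · exact Or.inr ⟨e, Or.inr f⟩
    · exact Or.inl ⟨h, Or.inl e⟩
  let nb : Y → Finset (Y ⊕ Fin w) := fun x => (univ.filter (lt x)).disjSum univ
  obtain ⟨sc, s1, s2⟩ := (all_card_le_biUnion_card_iff_exists_injective nb).1 fun J => by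
    rcases J.eq_empty_or_nonempty with rfl | ⟨x0, hx0⟩
    · simp
    let U := univ.filter fun y => ∃ x ∈ J, lt x y
    have a1 : U.disjSum (univ : Finset (Fin w)) ⊆ J.biUnion nb := by
      rintro (y | i) hy
      · obtain ⟨x, hx, h⟩ := (mem_filter.1 (inl_mem_disjSum.1 hy)).2
        exact mem_biUnion.2 ⟨x, hx, inl_mem_disjSum.2 (mem_filter.2 ⟨mem_univ _, h⟩)⟩
      · exact mem_biUnion.2 ⟨x0, hx0, inr_mem_disjSum.2 (mem_univ _)⟩
    have a2 := card_le_card a1
    rw [card_disjSum, card_univ, Fintype.card_fin] at a2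
    have a3 : (J \ U).card ≤ w := by
      by_contra hc
      obtain ⟨x, hx, y, hy, hne, h⟩ := hw ((J \ U).map (Function.Embedding.subtype _))
        (fun v hv => by obtain ⟨u, -, rfl⟩ := mem_map.1 hv; exact u.2) (by rw [card_map]; omega)
      obtain ⟨x, hx', rfl⟩ := mem_map.1 hx
      obtain ⟨y, hy', rfl⟩ := mem_map.1 hy
      rcases l3 x y (fun e => hne (by rw [e])) h with f | f
      · exact (mem_sdiff.1 hy').2 (mem_filter.2 ⟨mem_univ _, x, (mem_sdiff.1 hx').1, f⟩)
      · exact (mem_sdiff.1 hx').2 (mem_filter.2 ⟨mem_univ _, y, (mem_sdiff.1 hy').1, f⟩)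
    have a4 := le_card_sdiff U J
    omega
  have s3 : ∀ x y, sc x = Sum.inl y → lt x y := fun x y e => by
    have := s2 x
    rw [e] at this
    exact (mem_filter.1 (inl_mem_disjSum.1 this)).2
  have top : ∀ (n : ℕ) (x : Y), (univ.filter (lt x)).card ≤ n → ∃ i : Fin w, ∃ z,
      Relation.ReflTransGen (fun a b => sc b = Sum.inl a) z x ∧ sc z = Sum.inr i := by
    intro n
    induction n using Nat.strong_induction_on with
    | _ n ih =>
      intro x hx
      rcases e : sc x with y | i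
      · have : (univ.filter (lt y)).card < (univ.filter (lt x)).card := card_lt_card
          ⟨fun z hz => mem_filter.2 ⟨mem_univ _, l2 _ _ _ (s3 x y e) (mem_filter.1 hz).2⟩,
            fun f => l1 y (mem_filter.1 (f (mem_filter.2 ⟨mem_univ _, s3 x y e⟩))).2⟩
        obtain ⟨i, z, h1, h2⟩ := ih _ (lt_of_lt_of_le this hx) y le_rfl
        exact ⟨i, z, h1.tail e, h2⟩
      · exact ⟨i, x, Relation.ReflTransGen.refl, e⟩
  choose c z c1 c2 using fun x => top _ x le_rfl
  have cmp : ∀ x y : Y, Relation.ReflTransGen (fun a b => sc b = Sum.inl a) x y →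
      y = x ∨ r y x := fun x y h => by
    induction h with
    | refl => exact Or.inl rfl
    | tail _ h ih => exact Or.inr (ih.elim (fun e => e ▸ (s3 _ _ h).1)
        (htrans _ _ _ (s3 _ _ h).1))
  refine ⟨fun v => if h : v ∈ Y then (c ⟨v, h⟩).1 else 0, fun y hy => ?_,
    fun x hx y hy e => ?_⟩
  · simp only [dif_pos hy]
    exact (c _).2
  · simp only [dif_pos hx, dif_pos hy] at e
    have e1 : z ⟨x, hx⟩ = z ⟨y, hy⟩ := s1 (by rw [c2, c2, Fin.ext e])
    rcases Relation.ReflTransGen.total_of_right_unique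
      (fun a b c h h' => s1 (h.trans h'.symm)) (c1 ⟨x, hx⟩) (e1 ▸ c1 ⟨y, hy⟩) with f | f
    · exact (cmp _ _ f).elim (fun g => Or.inl (congrArg Subtype.val g).symm)
        fun g => Or.inr (Or.inr g)
    · exact (cmp _ _ f).elim (fun g => Or.inl (congrArg Subtype.val g))
        fun g => Or.inr (Or.inl g)

theorem exists_low {E : Type} {r : E → E → Prop} (htrans : ∀ x y z, r x y → r y z → r x z)
    (U : Finset E) (hU : U.Nonempty) (h : ∀ x ∈ U, ∀ y ∈ U, r x y ∨ r y x) :
    ∃ e ∈ U, ∀ u ∈ U, r u e := by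
  classical
  obtain ⟨e, he, hm⟩ := exists_max_image U (fun e => (U.filter fun u => r u e).card) hU
  refine ⟨e, he, fun u hu => ?_⟩
  by_contra hc
  have h1 := (h u hu e he).resolve_left hc
  refine absurd (hm u hu) (not_le.2 (card_lt_card ⟨fun x hx => mem_filter.2
    ⟨(mem_filter.1 hx).1, htrans _ _ _ (mem_filter.1 hx).2 h1⟩, fun f => hc ?_⟩))
  exact (mem_filter.1 (f (mem_filter.2 ⟨hu, (h u hu u hu).elim id id⟩))).2

namespace MG

variable {V E : Type} {G : MG V E} [DecidableEq V] [DecidableEq E]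

variable (G) in
/-- A path `P` from `s` with positions, having no shortcut among the arcs of `A`. -/
structure Row (A P : Finset E) (s : V) (pos : V → ℤ) (On : Set V) : Prop where
  on_src : ∀ e ∈ P, G.src e ∈ On
  on_tgt : ∀ e ∈ P, G.tgt e ∈ On
  on_s : s ∈ On
  step : ∀ e ∈ P, pos (G.tgt e) = pos (G.src e) + 1
  inj : ∀ u ∈ On, ∀ v ∈ On, pos u = pos v → u = v
  first : ∀ e ∈ P, pos s ≤ pos (G.src e)
  short : ∀ u ∈ On, ∀ v ∈ On, G.Arc A u v → pos v ≤ pos u + 1
  src_inj : ∀ e ∈ P, ∀ f ∈ P, G.src e = G.src f → e = f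

theorem Row.near {A P : Finset E} {s : V} {pos : V → ℤ} {On : Set V} (h : G.Row A P s pos On)
    (a : ℤ) : ∃ N : Finset V, N.card ≤ 2 ∧ ∀ y ∈ On, a ≤ pos y → pos y ≤ a + 1 → y ∈ N := by
  have one : ∀ a : ℤ, ∃ N : Finset V, N.card ≤ 1 ∧ ∀ y ∈ On, pos y = a → y ∈ N := by
    intro a
    by_cases hx : ∃ x ∈ On, pos x = a
    · obtain ⟨x, hx, rfl⟩ := hx
      exact ⟨{x}, by simp, fun y hy e => mem_singleton.2 (h.inj _ hy _ hx e)⟩
    · exact ⟨∅, by simp, fun y hy e => absurd ⟨y, hy, e⟩ hx⟩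
  obtain ⟨N₁, c1, m1⟩ := one a
  obtain ⟨N₂, c2, m2⟩ := one (a + 1)
  refine ⟨N₁ ∪ N₂, (card_union_le _ _).trans (by omega), fun y hy h1 h2 => ?_⟩
  by_cases e : pos y = a
  · exact mem_union_left _ (m1 y hy e)
  · exact mem_union_right _ (m2 y hy (by omega))

/-- A family of arc-disjoint paths of least total length. -/
theorem exists_rows {A : Finset E} {s t : V} {N : ℕ} (h : G.Rich A N s t) :
    ∃ P : ℕ → List E,
      (∀ i ∈ range N, G.Walk s t (P i) ∧ (∀ e ∈ P i, e ∈ A) ∧ (G.verts s (P i)).Nodup) ∧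
      (∀ i ∈ range N, ∀ j ∈ range N, i ≠ j → Disjoint (P i).toFinset (P j).toFinset) ∧
      ∀ i ∈ range N, ∃ pos On,
        G.Row (A \ (range N).biUnion fun i => (P i).toFinset) (P i).toFinset s pos On ∧
        G.rev.Row (A \ (range N).biUnion fun i => (P i).toFinset) (P i).toFinset t (-pos) On := by
  classical
  let Q : (ℕ → List E) → Prop := fun P =>
    (∀ i ∈ range N, G.Walk s t (P i) ∧ (∀ e ∈ P i, e ∈ A) ∧ (G.verts s (P i)).Nodup) ∧
      (∀ i ∈ range N, ∀ j ∈ range N, i ≠ j → Disjoint (P i).toFinset (P j).toFinset)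
  have hex : ∃ n, ∃ P, Q P ∧ ∑ i ∈ range N, (P i).length = n := by
    obtain ⟨F, h1, h2⟩ := menger h
    have : ∀ i, ∃ l, i ∈ range N → G.Walk s t l ∧ (∀ e ∈ l, e ∈ F i) ∧ (G.verts s l).Nodup := by
      intro i
      by_cases hi : i ∈ range N
      · obtain ⟨l, hl⟩ := (h1 i hi).2.exists_simple
        exact ⟨l, fun _ => hl⟩
      · exact ⟨[], fun h => absurd h hi⟩
    choose P hP using this
    refine ⟨_, P, ⟨fun i hi => ⟨(hP i hi).1, fun e he => (h1 i hi).1 ((hP i hi).2.1 e he),
      (hP i hi).2.2⟩, fun i hi j hj hij => (h2 i hi j hj hij).mono ?_ ?_⟩, rfl⟩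
    · exact fun e he => (hP i hi).2.1 e (List.mem_toFinset.1 he)
    · exact fun e he => (hP j hj).2.1 e (List.mem_toFinset.1 he)
  obtain ⟨P, hQ, hlen⟩ := Nat.find_spec hex
  refine ⟨P, hQ.1, hQ.2, fun i hi => ?_⟩
  obtain ⟨hw, hA, hn⟩ := hQ.1 i hi
  obtain ⟨pos, p0, p1, p2, p3⟩ := hw.exists_pos hn
  have hshort : ∀ u ∈ G.verts s (P i), ∀ v ∈ G.verts s (P i),
      G.Arc (A \ (range N).biUnion fun i => (P i).toFinset) u v → pos v ≤ pos u + 1 := by
    rintro u hu v hv ⟨f, hf, rfl, rfl⟩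
    obtain ⟨hfA, hfU⟩ := mem_sdiff.1 hf
    obtain ⟨l₁, l₂, e1, w1, -⟩ := hw.split_vert hu
    obtain ⟨l₃, l₄, e2, w3, w4⟩ := hw.split_vert hv
    obtain ⟨l, hs, hlw, hln⟩ := (w1.append (Walk.cons f _ _ w4)).exists_simple
    have hmem : ∀ e ∈ l, e = f ∨ e ∈ P i := by
      intro e he
      have := hs.subset he
      simp only [List.mem_append, List.mem_cons] at this
      rcases this with a | a | a
      · exact Or.inr (e1 ▸ List.mem_append_left _ a)
      · exact Or.inl a
      · exact Or.inr (e2 ▸ List.mem_append_right _ a)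
    have hd : ∀ j ∈ range N, j ≠ i → Disjoint (P j).toFinset l.toFinset := by
      intro j hj hji
      refine disjoint_right.2 fun e he he' => ?_
      rcases hmem e (List.mem_toFinset.1 he) with rfl | a
      · exact hfU (mem_biUnion.2 ⟨j, hj, he'⟩)
      · exact disjoint_left.1 (hQ.2 j hj i hi hji) he' (List.mem_toFinset.2 a)
    have hQ' : Q (Function.update P i l) := by
      refine ⟨fun j hj => ?_, fun j hj j' hj' hjj => ?_⟩
      · by_cases hji : j = i
        · subst hji
          rw [Function.update_self]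
          exact ⟨hlw, fun e he => (hmem e he).elim (fun a => a ▸ hfA) (hA e), hln⟩
        · rw [Function.update_of_ne hji]
          exact hQ.1 j hj
      · by_cases hji : j = i
        · subst hji
          rw [Function.update_self, Function.update_of_ne hjj.symm]
          exact (hd j' hj' hjj.symm).symm
        · by_cases hj'i : j' = i
          · subst hj'i
            rw [Function.update_self, Function.update_of_ne hji]
            exact hd j hj hji
          · rw [Function.update_of_ne hji, Function.update_of_ne hj'i]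
            exact hQ.2 j hj j' hj' hjj
    have hmin := Nat.find_min' hex ⟨_, hQ', rfl⟩
    rw [← hlen, ← add_sum_erase _ _ hi, ← add_sum_erase _ _ hi, Function.update_self] at hmin
    have hsame : ∑ j ∈ (range N).erase i, (Function.update P i l j).length =
        ∑ j ∈ (range N).erase i, (P j).length :=
      sum_congr rfl fun j hj => by rw [Function.update_of_ne (mem_erase.1 hj).1]
    have a1 := hs.length_le
    have a2 := p3 _ _ _ e1 w1
    have a3 := p3 _ _ _ e2 w3
    have a4 := congrArg List.length e2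
    simp only [List.length_append, List.length_cons] at a1 a4
    omega
  have hlast : ∀ u ∈ G.verts s (P i), pos u ≤ pos t := by
    intro u hu
    obtain ⟨l₁, l₂, e1, w1, -⟩ := hw.split_vert hu
    rw [p3 _ _ _ e1 w1, p3 t (P i) [] (by simp) hw, e1]
    simp
  refine ⟨fun v => pos v, {v | v ∈ G.verts s (P i)}, ⟨?_, ?_, ?_, ?_, ?_, ?_, ?_, ?_⟩,
    ⟨?_, ?_, ?_, ?_, ?_, ?_, ?_, ?_⟩⟩
  · exact fun e he => hw.src_mem (List.mem_toFinset.1 he)
  · exact fun e he => tgt_mem_verts (List.mem_toFinset.1 he)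
  · simp [verts]
  · exact fun e he => by have := p1 e (List.mem_toFinset.1 he); omega
  · exact fun u hu v hv e => p2 u hu v hv (by omega)
  · exact fun e he => by omega
  · exact fun u hu v hv a => by have := hshort u hu v hv a; omega
  · exact fun e he f hf => hw.src_inj hn (List.mem_toFinset.1 he) (List.mem_toFinset.1 hf)
  · exact fun e he => tgt_mem_verts (List.mem_toFinset.1 he)
  · exact fun e he => hw.src_mem (List.mem_toFinset.1 he)
  · exact hw.end_mem
  · exact fun e he => by have := p1 e (List.mem_toFinset.1 he); simp; omega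
  · exact fun u hu v hv e => p2 u hu v hv (by simpa using e)
  · exact fun e he => by have := hlast _ (tgt_mem_verts (List.mem_toFinset.1 he)); simpa
  · exact fun u hu v hv a => by have := hshort v hv u hu (arc_rev.1 a); simp; omega
  · exact fun e he f hf =>
      tgt_inj_of_nodup hn (List.mem_toFinset.1 he) (List.mem_toFinset.1 hf)

theorem Walk.cut_nonempty {x y : V} {l : List E} (h : G.Walk x y l) {S : Set V} (hx : x ∈ S)
    (hy : y ∉ S) : (G.cut l.toFinset S).Nonempty := by
  by_contra hc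
  refine hy (h.reach.induction (· ∈ S) hx fun e he h1 => ?_)
  by_contra h2
  exact hc ⟨e, mem_cut.2 ⟨he, h1, h2⟩⟩

theorem card_cut_le_add (A F : Finset E) (S : Set V) :
    (G.cut A S).card ≤ (G.cut (A \ F) S).card + (G.cut F S).card := by
  refine le_trans (card_le_card fun e he => ?_) (card_union_le _ _)
  simp only [mem_union, mem_cut, mem_sdiff] at he ⊢
  tauto

theorem Feas.insert {ι : Type} [DecidableEq ι] {A F : Finset E} {dem : ι → V × V} {I : Finset ι}
    {i : ι} (h : G.Feas (A \ F) dem I) (hF : F ⊆ A) (hr : G.Reach F (dem i).1 (dem i).2) :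
    G.Feas A dem (insert i I) := by
  obtain ⟨F', h1, h2⟩ := h
  have hd : ∀ j ∈ Insert.insert i I, j ≠ i → Disjoint (F' j) F := fun j hj hji =>
    Disjoint.mono_left (h1 j ((mem_insert.1 hj).resolve_left hji)).1 sdiff_disjoint
  refine ⟨Function.update F' i F, fun j hj => ?_, fun j hj j' hj' hjj => ?_⟩
  · by_cases hji : j = i
    · subst hji
      simpa using ⟨hF, hr⟩
    · rw [Function.update_of_ne hji]
      have := h1 j ((mem_insert.1 hj).resolve_left hji)
      exact ⟨this.1.trans sdiff_subset, this.2⟩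
  · by_cases hji : j = i
    · subst hji
      rw [Function.update_self, Function.update_of_ne hjj.symm]
      exact (hd j' hj' hjj.symm).symm
    · by_cases hj'i : j' = i
      · subst hj'i
        rw [Function.update_self, Function.update_of_ne hji]
        exact hd j hj hji
      · rw [Function.update_of_ne hji, Function.update_of_ne hj'i]
        exact h2 j ((mem_insert.1 hj).resolve_left hji) j' ((mem_insert.1 hj').resolve_left hj'i)
          hjj

variable (G) in
/-- An arc with tail in `S` dominated by `m` arcs with tails in `S` on the same chain. -/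
def Gd (A : Finset E) (R : V → V → Prop) (ch : V → ℕ) (m : ℕ) (S : Set V) (e : E) : Prop :=
  e ∈ A ∧ G.src e ∈ S ∧ ∃ U ⊆ A, m ≤ U.card ∧
    ∀ u ∈ U, G.src u ∈ S ∧ ch (G.src u) = ch (G.src e) ∧ R (G.tgt u) (G.tgt e)

variable (G) in
/-- The stages of the search from `s`. -/
def St (A : Finset E) (R : V → V → Prop) (ch : V → ℕ) (m : ℕ) (s : V) : ℕ → Set V
  | 0 => {y | R s y}
  | i + 1 => St A R ch m s i ∪ {y | ∃ e, G.Gd A R ch m (St A R ch m s i) e ∧ R (G.tgt e) y}

variable (G) in
/-- Richness when the moves along `R` are free. -/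
def HRich (A : Finset E) (R : V → V → Prop) (K : ℕ) (x y : V) : Prop :=
  ∀ S : Set V, (∀ a b, a ∈ S → R a b → b ∈ S) → x ∈ S → y ∉ S → K ≤ (G.cut A S).card

theorem Gd.mono {A : Finset E} {R : V → V → Prop} {ch : V → ℕ} {m : ℕ} {S S' : Set V} {e : E}
    (h : G.Gd A R ch m S e) (hS : S ⊆ S') : G.Gd A R ch m S' e :=
  ⟨h.1, hS h.2.1, h.2.2.imp fun _ h => ⟨h.1, h.2.1, fun u hu =>
    ⟨hS (h.2.2 u hu).1, (h.2.2 u hu).2⟩⟩⟩

/-- A route which meets few arcs of every cut that it could destroy. -/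
theorem exists_route {A : Finset E} {R : V → V → Prop} {ch : V → ℕ} {w K : ℕ} {s t : V}
    (hW : G.WF A) (hrefl : ∀ x, R x x) (htrans : ∀ x y z, R x y → R y z → R x z)
    (c1 : ∀ y ∈ G.Vs, ch y < w) (c2 : ∀ x ∈ G.Vs, ∀ y ∈ G.Vs, ch x = ch y → R x y ∨ R y x)
    (h : G.HRich A R (w * w * (K + 1) + 1) s t) :
    ∃ F ⊆ A, G.Deg F 2 ∧ Relation.ReflTransGen (fun a b => R a b ∨ G.Arc F a b) s t ∧
      ∀ S : Set V, (∀ a b, a ∈ S → R a b → b ∈ S) → (G.cut (A \ F) S).card < K →
        (G.cut F S).card ≤ w := by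
  classical
  set T := G.St A R ch (K + 1) s with hT
  have mono : Monotone T := monotone_nat_of_le_succ fun i => Set.subset_union_left
  have clo : ∀ i a b, a ∈ T i → R a b → b ∈ T i := by
    intro i
    induction i with
    | zero => exact fun a b h h' => htrans _ _ _ h h'
    | succ i ih =>
      rintro a b (h | ⟨e, h1, h2⟩) h'
      · exact Or.inl (ih a b h h')
      · exact Or.inr ⟨e, h1, htrans _ _ _ h2 h'⟩
  let lev : V → ℕ := fun y => sInf {i | y ∈ T i}
  have v1 : ∀ y i, y ∈ T i → lev y ≤ i := fun y i h => Nat.sInf_le h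
  have v2 : ∀ y i, y ∈ T i → y ∈ T (lev y) := fun y i h => Nat.sInf_mem (s := {i | y ∈ T i}) ⟨i, h⟩
  have ht : ∃ i, t ∈ T i := by
    by_contra hc
    have a1 := h {y | ∃ i, y ∈ T i} (fun a b ⟨i, h⟩ h' => ⟨i, clo i a b h h'⟩) ⟨0, hrefl s⟩ hc
    obtain ⟨p, -, hp⟩ := exists_lt_card_fiber_of_mul_lt_card_of_maps_to
      (s := G.cut A {y | ∃ i, y ∈ T i}) (t := range w ×ˢ range w) (n := K + 1)
      (f := fun e => (ch (G.src e), ch (G.tgt e)))
      (fun e he => mem_product.2 ⟨mem_range.2 (c1 _ (hW e (mem_cut.1 he).1).1),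
        mem_range.2 (c1 _ (hW e (mem_cut.1 he).1).2)⟩) (by simpa using a1)
    set U := (G.cut A {y | ∃ i, y ∈ T i}).filter fun e => (ch (G.src e), ch (G.tgt e)) = p
    have u1 : ∀ e ∈ U, e ∈ A ∧ (∃ i, G.src e ∈ T i) ∧ ¬ ∃ i, G.tgt e ∈ T i := fun e he =>
      mem_cut.1 (mem_filter.1 he).1
    have u2 : ∀ e ∈ U, ∀ f ∈ U, ch (G.src e) = ch (G.src f) ∧ ch (G.tgt e) = ch (G.tgt f) :=
      fun e he f hf => Prod.ext_iff.1 ((mem_filter.1 he).2.trans (mem_filter.1 hf).2.symm)
    obtain ⟨e, he, hl⟩ := exists_low (r := fun u e => R (G.tgt u) (G.tgt e))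
      (fun _ _ _ => htrans _ _ _) U (card_pos.1 (by omega)) fun x hx y hy =>
        c2 _ (hW x (u1 x hx).1).2 _ (hW y (u1 y hy).1).2 (u2 x hx y hy).2
    have u3 : ∀ u ∈ U, G.src u ∈ T (U.sup fun u => lev (G.src u)) := fun u hu => by
      obtain ⟨i, hi⟩ := (u1 u hu).2.1
      exact mono (le_sup (f := fun u => lev (G.src u)) hu) (v2 _ i hi)
    exact (u1 e he).2.2 ⟨(U.sup fun u => lev (G.src u)) + 1, Or.inr ⟨e, ⟨(u1 e he).1, u3 e he, U, fun u hu => (u1 u hu).1, hp.le,
      fun u hu => ⟨u3 u hu, (u2 u hu e he).1, hl u hu⟩⟩, hrefl _⟩⟩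
  have key : ∀ n y, y ∈ T n → lev y = n → ∃ F ⊆ A,
      Relation.ReflTransGen (fun a b => R a b ∨ G.Arc F a b) s y ∧
      (∀ e ∈ F, ∃ j < n, G.Gd A R ch (K + 1) (T j) e) ∧
      (∀ e ∈ F, ∀ f ∈ F, lev (G.src e) = lev (G.src f) ∨ G.tgt e = G.tgt f → e = f) ∧
      ∀ e ∈ F, ∃ U ⊆ A, K + 1 ≤ U.card ∧ ∀ u ∈ U, (u ∈ F → u = e) ∧
        ch (G.src u) = ch (G.src e) ∧ R (G.tgt u) (G.tgt e) ∧ (∃ j < n, G.src u ∈ T j) ∧
        ∀ f ∈ F, lev (G.src e) < lev (G.src f) → lev (G.src u) < lev (G.src f) := by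
    intro n
    induction n using Nat.strong_induction_on with
    | _ n ih =>
      intro y hy hn
      rcases n with _ | i
      · exact ⟨∅, empty_subset _, Relation.ReflTransGen.single (Or.inl hy), by simp, by simp,
          by simp⟩
      obtain ⟨e0, he0⟩ := hy.resolve_left fun f => by have := v1 y i f; omega
      obtain ⟨e, he, hm⟩ := exists_min_image
        (A.filter fun e => G.Gd A R ch (K + 1) (T i) e ∧ R (G.tgt e) y) (fun e => lev (G.src e))
        ⟨e0, mem_filter.2 ⟨he0.1.1, he0⟩⟩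
      obtain ⟨-, g1, g2⟩ := mem_filter.1 he
      have l1 := v1 _ i g1.2.1
      obtain ⟨F, f1, f2, f3, f4, f5⟩ := ih _ (Nat.lt_succ_of_le l1) _ (v2 _ i g1.2.1) rfl
      have l2 : ∀ f ∈ F, lev (G.src f) < lev (G.src e) := fun f hf => by
        obtain ⟨j, hj, g⟩ := f3 f hf
        exact lt_of_le_of_lt (v1 _ j g.2.1) hj
      have l3 : ∀ f ∈ F, ¬ R (G.tgt f) y := fun f hf a => by
        obtain ⟨j, hj, g⟩ := f3 f hf
        exact absurd (hm f (mem_filter.2 ⟨g.1, g.mono (mono (by omega)), a⟩))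
          (not_le.2 (l2 f hf))
      refine ⟨Insert.insert e F, insert_subset g1.1 f1, ?_, fun f hf => ?_,
        fun f hf f' hf' a => ?_, fun f hf => ?_⟩
      · exact ((rtg_mono f2 fun a b h => h.imp_right (·.mono (subset_insert e F))).tail
          (Or.inr ⟨e, mem_insert_self _ _, rfl, rfl⟩)).tail (Or.inl g2)
      · rcases mem_insert.1 hf with rfl | hf
        · exact ⟨i, by omega, g1⟩
        · exact (f3 f hf).imp fun j h => ⟨by omega, h.2⟩
      · rcases mem_insert.1 hf with b | b <;> rcases mem_insert.1 hf' with b' | b'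
        · rw [b, b']
        · subst b
          exact (a.elim (fun a => absurd (l2 f' b') (by omega)) fun a => l3 f' b' (a ▸ g2)).elim
        · subst b'
          exact (a.elim (fun a => absurd (l2 f b) (by omega)) fun a => l3 f b (a ▸ g2)).elim
        · exact f4 f b f' b' a
      · rcases mem_insert.1 hf with b | b
        · subst b
          obtain ⟨U, u1, u2, u3⟩ := g1.2.2
          refine ⟨U, u1, u2, fun u hu => ⟨fun a => (mem_insert.1 a).resolve_right fun a =>
            l3 u a (htrans _ _ _ (u3 u hu).2.2 g2), (u3 u hu).2.1, (u3 u hu).2.2,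
            ⟨i, by omega, (u3 u hu).1⟩, fun g hg a => ?_⟩⟩
          rcases mem_insert.1 hg with rfl | hg
          · omega
          · have := l2 g hg
            omega
        · obtain ⟨U, u1, u2, u3⟩ := f5 f b
          refine ⟨U, u1, u2, fun u hu => ?_⟩
          obtain ⟨a1, a2, a3, ⟨j, a4, a5⟩, a6⟩ := u3 u hu
          have a7 := lt_of_le_of_lt (v1 _ j a5) a4
          refine ⟨fun a => a1 ((mem_insert.1 a).resolve_left ?_), a2, a3, ⟨j, by omega, a5⟩,
            fun g hg a => ?_⟩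
          · rintro rfl
            omega
          · rcases mem_insert.1 hg with rfl | hg
            · exact a7
            · exact a6 g hg a
  obtain ⟨i, hi⟩ := ht
  obtain ⟨F, f1, f2, f3, f4, f5⟩ := key _ t (v2 t i hi) rfl
  refine ⟨F, f1, fun v => ?_, f2, fun S hS hc => ?_⟩
  · have h1 : (F.filter fun e => G.src e = v).card ≤ 1 := card_le_one.2 fun a ha b hb =>
      f4 a (mem_filter.1 ha).1 b (mem_filter.1 hb).1
        (Or.inl (by rw [(mem_filter.1 ha).2, (mem_filter.1 hb).2]))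
    have h2 : (F.filter fun e => G.tgt e = v).card ≤ 1 := card_le_one.2 fun a ha b hb =>
      f4 a (mem_filter.1 ha).1 b (mem_filter.1 hb).1
        (Or.inr (by rw [(mem_filter.1 ha).2, (mem_filter.1 hb).2]))
    rw [filter_or]
    exact (card_union_le _ _).trans (by omega)
  have half : ∀ e ∈ G.cut F S, ∀ f ∈ G.cut F S, ch (G.src e) = ch (G.src f) →
      ¬ lev (G.src e) < lev (G.src f) := by
    intro e he f hf a b
    obtain ⟨e1, -, e3⟩ := mem_cut.1 he
    obtain ⟨g1, g2, -⟩ := mem_cut.1 hf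
    obtain ⟨U, u1, u2, u3⟩ := f5 e e1
    obtain ⟨u, hu, hu'⟩ : ∃ u ∈ U, u ∉ Insert.insert e (G.cut (A \ F) S) :=
      exists_mem_notMem_of_card_lt_card (lt_of_le_of_lt (card_insert_le _ _) (by omega))
    obtain ⟨a1, a2, a3, ⟨j, -, a5⟩, a6⟩ := u3 u hu
    rw [mem_insert, not_or] at hu'
    have a7 : G.src u ∉ S := fun c => hu'.2 (mem_cut.2 ⟨mem_sdiff.2 ⟨u1 hu, fun d => hu'.1 (a1 d)⟩,
      c, fun d => e3 (hS _ _ d a3)⟩)
    rcases c2 _ (hW u (u1 hu)).1 _ (hW f (f1 g1)).1 (a2.trans a) with c | c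
    · exact absurd (v1 _ _ (clo _ _ _ (v2 _ j a5) c)) (not_le.2 (a6 f g1 b))
    · exact a7 (hS _ _ g2 c)
  rw [← card_range w]
  refine card_le_card_of_injOn (fun e => ch (G.src e))
    (fun e he => mem_coe.2 (mem_range.2 (c1 _ (hW e (f1 (mem_cut.1 he).1)).1)))
    fun e he f hf a => f4 e (mem_cut.1 he).1 f (mem_cut.1 hf).1 (Or.inl ?_)
  have := half e he f hf a
  have := half f hf e he a.symm
  omega

theorem exists_routes {ι : Type} [DecidableEq ι] (w k : ℕ) : ∃ K : ℕ, ∀ (G : MG V E)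
    (A : Finset E) (R : V → V → Prop) (ch : V → ℕ) (dem : ι → V × V) (I : Finset ι),
    I.card ≤ k → G.WF A → (∀ x, R x x) → (∀ x y z, R x y → R y z → R x z) →
    (∀ y ∈ G.Vs, ch y < w) → (∀ x ∈ G.Vs, ∀ y ∈ G.Vs, ch x = ch y → R x y ∨ R y x) →
    (∀ i ∈ I, G.HRich A R K (dem i).1 (dem i).2) →
    ∃ F : ι → Finset E, (∀ i ∈ I, F i ⊆ A ∧ G.Deg (F i) 2 ∧
      Relation.ReflTransGen (fun a b => R a b ∨ G.Arc (F i) a b) (dem i).1 (dem i).2) ∧
      ∀ i ∈ I, ∀ j ∈ I, i ≠ j → Disjoint (F i) (F j) := by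
  induction k with
  | zero =>
    refine ⟨0, fun G A R ch dem I hI _ _ _ _ _ _ => ?_⟩
    obtain rfl : I = ∅ := card_eq_zero.1 (by omega)
    exact ⟨fun _ => ∅, by simp, by simp⟩
  | succ k ih =>
    obtain ⟨K, hK⟩ := ih
    refine ⟨w * w * (K + 1) + 1 + (K + w), fun G A R ch dem I hI hW r1 r2 c1 c2 hd => ?_⟩
    rcases I.eq_empty_or_nonempty with rfl | ⟨i, hi⟩
    · exact ⟨fun _ => ∅, by simp, by simp⟩
    obtain ⟨F, f1, f2, f3, f4⟩ := exists_route (K := K) hW r1 r2 c1 c2
      fun S a b c => le_trans (by omega) (hd i hi S a b c)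
    obtain ⟨F', g1, g2⟩ := hK G (A \ F) R ch dem (I.erase i) (by rw [card_erase_of_mem hi]; omega)
      (hW.mono sdiff_subset) r1 r2 c1 c2 fun j hj S a b c => by
        by_contra e
        have a1 := f4 S a (by omega)
        have a2 := hd j (mem_of_mem_erase hj) S a b c
        have a3 := card_cut_le_add (G := G) A F S
        omega
    have hD : ∀ j ∈ I, j ≠ i → Disjoint (F' j) F := fun j hj e =>
      Disjoint.mono_left (g1 j (mem_erase.2 ⟨e, hj⟩)).1 sdiff_disjoint
    refine ⟨Function.update F' i F, fun j hj => ?_, fun j hj j' hj' hjj => ?_⟩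
    · by_cases e : j = i
      · subst e
        rw [Function.update_self]
        exact ⟨f1, f2, f3⟩
      · rw [Function.update_of_ne e]
        have := g1 j (mem_erase.2 ⟨e, hj⟩)
        exact ⟨this.1.trans sdiff_subset, this.2⟩
    · by_cases e : j = i
      · subst e
        rw [Function.update_self, Function.update_of_ne hjj.symm]
        exact (hD j' hj' hjj.symm).symm
      · by_cases e' : j' = i
        · subst e'
          rw [Function.update_self, Function.update_of_ne e]
          exact hD j hj e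
        · rw [Function.update_of_ne e, Function.update_of_ne e']
          exact g2 j (mem_erase.2 ⟨e, hj⟩) j' (mem_erase.2 ⟨e', hj'⟩) hjj

theorem Deg.union {F F' : Finset E} {d d' : ℕ} (h : G.Deg F d) (h' : G.Deg F' d') :
    G.Deg (F ∪ F') (d + d') := fun x => by
  rw [filter_union]
  exact (card_union_le _ _).trans (add_le_add (h x) (h' x))

theorem lift_routes {ι : Type} [DecidableEq ι] {A : Finset E} {K : ℕ} {dem : ι → V × V}
    {F : ι → Finset E} (I : Finset ι) : ∀ (W : Finset E) (d : ℕ), G.Deg W d →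
    2 * (d + I.card * 2) < K → (∀ i ∈ I, F i ⊆ A \ W ∧ G.Deg (F i) 2 ∧ Relation.ReflTransGen
      (fun a b => Relation.ReflTransGen (G.DR A K) a b ∨ G.Arc (F i) a b) (dem i).1 (dem i).2) →
    (∀ i ∈ I, ∀ j ∈ I, i ≠ j → Disjoint (F i) (F j)) → G.Feas (A \ W) dem I := by
  induction I using Finset.induction_on with
  | empty => exact fun _ _ _ _ _ _ => ⟨fun _ => ∅, by simp, by simp⟩
  | insert j I hj ih =>
    intro W d hW hK h1 h2
    rw [card_insert_of_notMem hj] at hK
    have hB := hW.union (deg_biUnion fun i hi => (h1 i (mem_insert_of_mem hi)).2.1)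
    obtain ⟨a1, -, a3⟩ := h1 j (mem_insert_self _ _)
    have a4 : F j ⊆ A \ (W ∪ I.biUnion F) := fun e he => mem_sdiff.2 ⟨(mem_sdiff.1 (a1 he)).1,
      fun b => (mem_union.1 b).elim (mem_sdiff.1 (a1 he)).2 fun b => by
        obtain ⟨i, hi, b⟩ := mem_biUnion.1 b
        exact disjoint_left.1 (h2 j (mem_insert_self _ _) i (mem_insert_of_mem hi)
          fun c => hj (c ▸ hi)) he b⟩
    have a5 : ∀ x y, Relation.ReflTransGen (G.DR A K) x y →
        G.Reach (A \ (W ∪ I.biUnion F)) x y := fun x y h => by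
      induction h with
      | refl => exact Reach.refl _ _
      | tail _ h ih => exact ih.trans (h.reach hB (by omega))
    have a6 : ∀ x y, Relation.ReflTransGen (fun a b => Relation.ReflTransGen (G.DR A K) a b ∨
        G.Arc (F j) a b) x y → G.Reach (A \ (W ∪ I.biUnion F)) x y := fun x y h => by
      induction h with
      | refl => exact Reach.refl _ _
      | tail _ h ih =>
        rcases h with h | ⟨e, he, rfl, rfl⟩
        · exact ih.trans (a5 _ _ h)
        · exact ih.trans (Reach.single (a4 he))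
    obtain ⟨l, l1, l2, l3⟩ := (a6 _ _ a3).exists_simple
    have l4 : ∀ e ∈ l.toFinset, e ∈ A ∧ e ∉ W ∧ e ∉ I.biUnion F := fun e he => by
      simpa only [mem_sdiff, mem_union, not_or] using l2 e (List.mem_toFinset.1 he)
    have := ih (W ∪ l.toFinset) (d + 2) (hW.union (l1.deg l3)) (by omega)
      (fun i hi => ⟨fun e he => by
        have := mem_sdiff.1 ((h1 i (mem_insert_of_mem hi)).1 he)
        exact mem_sdiff.2 ⟨this.1, fun b => (mem_union.1 b).elim this.2
          fun b => (l4 e b).2.2 (mem_biUnion.2 ⟨i, hi, he⟩)⟩, (h1 i (mem_insert_of_mem hi)).2⟩)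
      fun i hi i' hi' => h2 i (mem_insert_of_mem hi) i' (mem_insert_of_mem hi')
    rw [show A \ (W ∪ l.toFinset) = (A \ W) \ l.toFinset from sdiff_sdiff_left.symm] at this
    exact this.insert (fun e he => mem_sdiff.2 ⟨(l4 e he).1, (l4 e he).2.1⟩) l1.reach

/-- If all demands are rich, they can be met. -/
theorem all_rich {ι : Type} [DecidableEq ι] (a k Δ : ℕ) : ∃ K : ℕ, ∀ (G : MG V E) (A : Finset E)
    (dem : ι → V × V) (I : Finset ι), I.card ≤ k → G.Rob a A Δ → G.WF A →
    (∀ i ∈ I, (dem i).1 ∈ G.Vs ∧ (dem i).2 ∈ G.Vs ∧ G.Rich A K (dem i).1 (dem i).2) →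
    G.Feas A dem I := by
  obtain ⟨K, hK⟩ := exists_routes (V := V) (E := E) (ι := ι) (wd a Δ (4 * k + 1)) k
  refine ⟨K, fun G A dem I hI hA hW hd => ?_⟩
  obtain ⟨ch, c1, c2⟩ := exists_chains (r := Relation.ReflTransGen (G.DR A (4 * k + 1)))
    (fun _ _ _ => Relation.ReflTransGen.trans) G.Vs _ fun X hX hc =>
      (hA.exists_dr _ hX hc).imp fun _ ⟨hx, y, hy, hne, h⟩ =>
        ⟨hx, y, hy, hne, Relation.ReflTransGen.single h⟩
  obtain ⟨F, f1, f2⟩ := hK G A _ ch dem I hI hW (fun _ => Relation.ReflTransGen.refl)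
    (fun _ _ _ => Relation.ReflTransGen.trans) c1
    (fun x hx y hy e => (c2 x hx y hy e).elim
      (fun f => Or.inl (f ▸ Relation.ReflTransGen.refl)) id) fun i hi S _ => (hd i hi).2.2 S
  have := lift_routes (G := G) (A := A) (K := 4 * k + 1) (dem := dem) (F := F) I ∅ 0
    (fun _ => by simp) (by omega) (by simpa using f1) f2
  simpa using this

end MG

end Pool.Agent.P.MP_eb0bd2_lc.A
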