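import Pool.Agent.P.MP_eb0bd2_lc.A.Final
import Pool.Agent.P.MP_eb0bd2_lc.Defs

set_option autoImplicit false

namespace Pool.Agent.P.MP_eb0bd2_lc.A

open Relation Finset

theorem out_rtg {V : Type} {D B : Digraph V} {s : V} (h : IsOutBranching D B s)
    (v : V) : ReflTransGen B.Adj s v := by
  obtain ⟨-, h1, h2, h3⟩ := h
  have := (SimpleGraph.reachable_iff_reflTransGen _ _).1 (h1.connected s v)
  induction this with
  | refl => exact .refl
  | @tail u w _ h ih =>
    rcases ((SimpleGraph.fromRel_adj _ _ _).1 h).2 with a | a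
    · exact ih.tail a
    · rcases ih.cases_tail with rfl | ⟨x, b, c⟩
      · exact absurd a (h2 _)
      · rwa [(h3 u fun e => h2 _ (e ▸ a)).unique a c]

theorem exists_out {V : Type} [Finite V] {D : Digraph V} {r : V → V → Prop} {s : V}
    (hr : ∀ u v, r u v → D.Adj u v) (h : ∀ v, ReflTransGen r s v) :
    ∃ B : Digraph V, IsOutBranching D B s ∧ ∀ u v, B.Adj u v → r u v := by
  classical
  have := Fintype.ofFinite V
  have : Nonempty (V × V) := ⟨(s, s)⟩
  obtain ⟨p, d, hp⟩ := MG.exists_tree (G := (⟨Prod.fst, Prod.snd, univ⟩ : MG V (V × V)))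
    (H := univ.filter fun e => r e.1 e.2) (s := s) fun v _ => MG.reach_iff_rtg.2
      (rtg_mono (h v) fun a b hab => ⟨(a, b), by simpa using hab, rfl, rfl⟩)
  have h1 : ∀ v, v ≠ s → r (p v).1 v ∧ d (p v).1 < d v := fun v hv => by
    obtain ⟨a, b, c⟩ := hp v (mem_univ _) hv
    exact ⟨by simpa [show (p v).2 = v from b] using a, c⟩
  have h2 : ∀ u v, v ≠ s ∧ u = (p v).1 → r u v := by
    rintro u v ⟨a, rfl⟩; exact (h1 v a).1
  refine ⟨⟨fun u v => v ≠ s ∧ u = (p v).1⟩, ⟨fun u v a => hr _ _ (h2 u v a), ?_,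
    fun u a => a.1 rfl, fun v hv => ⟨(p v).1, ⟨hv, rfl⟩, fun u a => a.2⟩⟩, h2⟩
  set T := SimpleGraph.fromRel fun u v => v ≠ s ∧ u = (p v).1
  have hc : T.Connected := by
    refine (SimpleGraph.connected_iff_exists_forall_reachable _).2 ⟨s, fun v => ?_⟩
    induction hm : d v using Nat.strong_induction_on generalizing v with
    | _ m ih =>
      by_cases hv : v = s
      · rw [hv]
      · refine (ih _ (hm ▸ (h1 v hv).2) _ rfl).trans (SimpleGraph.Adj.reachable ?_)
        exact (SimpleGraph.fromRel_adj _ _ _).2 ⟨fun e => by simpa [e] using (h1 v hv).2,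
          Or.inl ⟨hv, rfl⟩⟩
  refine SimpleGraph.isTree_iff_connected_and_card.2 ⟨hc, le_antisymm ?_
    hc.card_vert_le_card_edgeSet_add_one⟩
  have : T.edgeSet ⊆ ((univ.erase s).image fun v => s((p v).1, v) : Finset (Sym2 V)) := by
    intro e he
    induction e using Sym2.ind with
    | _ u v =>
      have he' : T.Adj u v := he
      rcases ((SimpleGraph.fromRel_adj _ _ _).1 he').2 with ⟨a, rfl⟩ | ⟨a, rfl⟩
      · exact mem_coe.2 (mem_image.2 ⟨v, by simpa using a, rfl⟩)
      · exact mem_coe.2 (mem_image.2 ⟨u, by simpa using a, Sym2.eq_swap⟩)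
  have a1 := Set.ncard_le_ncard this
  rw [Set.ncard_coe_finset] at a1
  have a2 := card_image_le (s := univ.erase s) (f := fun v => s((p v).1, v))
  have a3 := card_erase_add_one (mem_univ s)
  rw [Nat.card_coe_set_eq, Nat.card_eq_fintype_card, ← card_univ]
  omega

theorem isIn_iff {V : Type} {D B : Digraph V} {t : V} : IsInBranching D B t ↔
    IsOutBranching ⟨fun u v => D.Adj v u⟩ ⟨fun u v => B.Adj v u⟩ t := by
  have : (SimpleGraph.fromRel fun u v => B.Adj v u) = SimpleGraph.fromRel B.Adj := by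
    ext u v; simp [or_comm]
  simp only [IsInBranching, IsOutBranching, this]
  exact and_congr_left' forall_comm

theorem pack_iff {V ι : Type} [Finite V] {D : Digraph V} {out : ι → Bool} {root : ι → V}
    {H : ι → ι → Prop} :
    (∃ B : ι → Digraph V, (∀ i, if out i then IsOutBranching D (B i) (root i)
      else IsInBranching D (B i) (root i)) ∧
      ∀ i j, H i j → ∀ u v, ¬ ((B i).Adj u v ∧ (B j).Adj u v)) ↔
    ∃ r : ι → V → V → Prop, (∀ i, (∀ u v, r i u v → D.Adj u v) ∧ ∀ v,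
      if out i then ReflTransGen (r i) (root i) v else ReflTransGen (r i) v (root i)) ∧
      ∀ i j, H i j → ∀ u v, ¬ (r i u v ∧ r j u v) := by
  constructor
  · rintro ⟨B, h1, h2⟩
    refine ⟨fun i => (B i).Adj, fun i => ?_, h2⟩
    have := h1 i
    split_ifs at this ⊢
    · exact ⟨this.1, out_rtg this⟩
    · exact ⟨this.1, fun v => MG.rtg_swap (out_rtg (isIn_iff.1 this) v)⟩
  · rintro ⟨r, h1, h2⟩
    have : ∀ i, ∃ B : Digraph V, (if out i then IsOutBranching D B (root i)
        else IsInBranching D B (root i)) ∧ ∀ u v, B.Adj u v → r i u v := fun i => by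
      obtain ⟨a1, a2⟩ := h1 i
      split_ifs at a2 ⊢
      · exact exists_out a1 a2
      · obtain ⟨B, b1, b2⟩ := exists_out (D := ⟨fun u v => D.Adj v u⟩) (r := fun u v => r i v u)
          (fun u v => a1 v u) fun v => MG.rtg_swap (a2 v)
        exact ⟨⟨fun u v => B.Adj v u⟩, isIn_iff.2 b1, fun u v => b2 v u⟩
    choose B b1 b2 using this
    exact ⟨B, b1, fun i j hij u v h => h2 i j hij u v ⟨b2 i _ _ h.1, b2 j _ _ h.2⟩⟩

variable {n : ℕ} {D : Digraph (Fin n)} [DecidableRel D.Adj]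

theorem length_adj : (adjMatrix D).length = n := by simp [adjMatrix]

theorem mem_arcs_adj {e : ℕ × ℕ × ℕ} :
    e ∈ arcs (adjMatrix D) ↔ ∃ u v : Fin n, D.Adj u v ∧ e = (0, u.1, v.1) := by
  obtain ⟨i, u, v⟩ := e
  rw [mem_arcs, length_adj]
  constructor
  · rintro ⟨rfl, h1, h2, h3⟩
    refine ⟨⟨u, h1⟩, ⟨v, h2⟩, ?_, rfl⟩
    simp only at h1 h2
    simpa [adjMatrix, List.getD_eq_getElem?_getD, h1, h2] using h3
  · rintro ⟨u, v, h, e⟩
    obtain ⟨rfl, rfl, rfl⟩ : i = 0 ∧ _ = _ ∧ _ = _ := by simpa using e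
    simpa [adjMatrix, List.getD_eq_getElem?_getD] using h

theorem rob_adj {a : ℕ} (hl : ∀ v, ¬ D.Adj v v) (hα : ∀ I, IsIndep D I → I.card ≤ a) :
    (std (List.range (adjMatrix D).length).toFinset).Rob a (arcs (adjMatrix D)).toFinset 0 := by
  refine ⟨fun _ => ∅, by simp, by simp, fun I hI hc => ?_⟩
  have e : I = (univ.filter fun v : Fin n => v.1 ∈ I).map Fin.valEmbedding := by
    ext x
    simp only [mem_map, mem_filter, mem_univ, true_and, Fin.valEmbedding_apply]
    exact ⟨fun h => ⟨⟨x, by simpa [length_adj] using hI h⟩, h, rfl⟩, fun ⟨v, h, e⟩ => e ▸ h⟩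
  rw [e, card_map] at hc
  have := mt (hα _) (not_le.2 hc)
  simp only [IsIndep, not_forall, not_not, mem_filter, mem_univ, true_and] at this
  obtain ⟨u, hu, v, hv, h⟩ := this
  exact ⟨u, hu, v, hv, fun e => hl u (by rwa [← Fin.ext e] at h), Or.inl
    ⟨_, List.mem_toFinset.2 (mem_arcs_adj.2 ⟨u, v, h, rfl⟩), rfl, rfl⟩⟩

theorem gp_adj {k : ℕ} {out : Fin k → Bool} {root : Fin k → Fin n} {q : ℕ → Bool × ℕ}
    (hq : ∀ i : Fin k, q i = (out i, (root i).1)) {H₀ : SimpleGraph (Fin k)} {cf : ℕ → ℕ → Prop}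
    (hc : ∀ i j : Fin k, cf i j ↔ H₀.Adj i j) :
    (std (List.range (adjMatrix D).length).toFinset).GP (arcs (adjMatrix D)).toFinset q cf k ↔
    ∃ r : Fin k → Fin n → Fin n → Prop, (∀ i, (∀ u v, r i u v → D.Adj u v) ∧ ∀ v,
      if out i then ReflTransGen (r i) (root i) v else ReflTransGen (r i) v (root i)) ∧
      ∀ i j, H₀.Adj i j → ∀ u v, ¬ (r i u v ∧ r j u v) := by
  classical
  set G := std (List.range (adjMatrix D).length).toFinset
  have hv : ∀ v, v ∈ G.Vs ↔ v < n := by simp [G, length_adj]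
  constructor
  · rintro ⟨H, a1, a3⟩
    have k1 : ∀ H ⊆ (arcs (adjMatrix D)).toFinset, ∀ u v : Fin n, (0, u.1, v.1) ∈ H → D.Adj u v := by
      intro H hH u v h
      obtain ⟨u', v', b, e⟩ := mem_arcs_adj.1 (List.mem_toFinset.1 (hH h))
      obtain ⟨rfl, rfl⟩ : u = u' ∧ v = v' := by simpa [Fin.ext_iff] using e
      exact b
    have k2 : ∀ H ⊆ (arcs (adjMatrix D)).toFinset, ∀ u v : Fin n, G.Reach H u v →
        ReflTransGen (fun u v : Fin n => (0, u.1, v.1) ∈ H) u v := by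
      intro H hH u v h
      refine h.induction (fun x => ∀ v : Fin n, v.1 = x →
        ReflTransGen (fun u v : Fin n => (0, u.1, v.1) ∈ H) u v) ?_ ?_ v rfl
      · intro w e
        rw [Fin.ext e]
      · intro e he ih w e'
        obtain ⟨u', v', -, rfl⟩ := mem_arcs_adj.1 (List.mem_toFinset.1 (hH he))
        obtain rfl : w = v' := Fin.ext e'
        exact (ih u' rfl).tail he
    refine ⟨fun i u v => (0, u.1, v.1) ∈ H i, fun i => ⟨k1 _ (a1 i i.2).1, fun v => ?_⟩,
      fun i j hij u v h => disjoint_left.1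
        (a3 i i.2 j j.2 (fun e => hij.ne (Fin.ext e)) ((hc i j).2 hij)) h.1 h.2⟩
    have := (a1 i i.2).2 _ ((hv _).2 v.2)
    rw [hq] at this
    revert this
    cases out i
    exacts [fun h => k2 _ (a1 i i.2).1 _ _ (MG.reach_rev_iff.1 h), k2 _ (a1 i i.2).1 _ _]
  · rintro ⟨r, a1, a3⟩
    let H : (Fin n → Fin n → Prop) → Finset (ℕ × ℕ × ℕ) := fun r =>
      (arcs (adjMatrix D)).toFinset.filter fun e => ∃ u v : Fin n, r u v ∧ e = (0, u.1, v.1)
    have k0 : ∀ r : Fin n → Fin n → Prop, (∀ u v, r u v → D.Adj u v) → ∀ u v,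
        ReflTransGen r u v → G.Reach (H r) u v := by
      intro r hr u v h
      induction h with
      | refl => exact MG.Reach.refl _ _
      | @tail x y _ h ih =>
        exact ih.trans (MG.Reach.single (G := G) (e := (0, x.1, y.1)) (mem_filter.2
          ⟨List.mem_toFinset.2 (mem_arcs_adj.2 ⟨x, y, hr _ _ h, rfl⟩), x, y, h, rfl⟩))
    refine ⟨fun j => if h : j < k then H (r ⟨j, h⟩) else ∅, fun j hj => ?_,
      fun i hi j hj _ hij => ?_⟩
    · simp only [dif_pos hj]
      refine ⟨filter_subset _ _, fun v h => ?_⟩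
      have := (a1 ⟨j, hj⟩).2 ⟨v, (hv v).1 h⟩
      rw [show q j = _ from hq ⟨j, hj⟩]
      revert this
      cases out ⟨j, hj⟩
      exacts [fun h => (k0 _ (a1 _).1 _ _ h).rev, k0 _ (a1 _).1 _ _]
    · simp only [dif_pos hi, dif_pos hj]
      refine disjoint_left.2 fun e b c => ?_
      obtain ⟨u, v, b', rfl⟩ := (mem_filter.1 b).2
      obtain ⟨u', v', c', e⟩ := (mem_filter.1 c).2
      obtain ⟨rfl, rfl⟩ : u = u' ∧ v = v' := by simpa [Fin.ext_iff] using e
      exact a3 _ _ ((hc ⟨i, hi⟩ ⟨j, hj⟩).1 hij) u v ⟨b', c'⟩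

theorem mainPT (a r : ℕ) (H : SimpleGraph (Fin r)) :
    ∃ f : List (List Bool) × List (Bool × ℕ) → Bool, Pool.Agent.Lib.PolyTime.PT f ∧ ∀ (n : ℕ) (D : Digraph (Fin n)) [DecidableRel D.Adj]
      (out : Fin r → Bool) (root : Fin r → Fin n), (∀ v, ¬ D.Adj v v) →
      (∀ I : Finset (Fin n), IsIndep D I → I.card ≤ a) →
      (f (adjMatrix D, List.ofFn fun i => (out i, (root i).val)) = true ↔
        ∃ B : Fin r → Digraph (Fin n), (∀ i, if out i then IsOutBranching D (B i) (root i)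
          else IsInBranching D (B i) (root i)) ∧
          ∀ i j, H.Adj i j → ∀ u v, ¬ ((B i).Adj u v ∧ (B j).Adj u v)) := by
  classical
  obtain ⟨f, h1, h2⟩ := exists_alg a r (((univ.filter fun p : Fin r × Fin r =>
    H.Adj p.1 p.2).image fun p => (p.1.1, p.2.1)).toList)
  refine ⟨f, h1, fun n D _ out root b c => ?_⟩
  have hq : ∀ i : Fin r, (List.ofFn fun i => (out i, (root i).val)).getD i (true, 0) =
      (out i, (root i).1) := fun i => by simp [List.getD_eq_getElem?_getD]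
  rw [h2 _ _ (rob_adj b c) (by simp) fun j hj => by
    rw [List.length_ofFn] at hj
    rw [show _ = _ from hq ⟨j, hj⟩, length_adj]
    exact (root _).2, List.length_ofFn, gp_adj hq (H₀ := H) fun i j => by
      simp [Fin.val_inj], pack_iff]

theorem main (a r : ℕ) (H : SimpleGraph (Fin r)) : ∃ f : List (List Bool) × List (Bool × ℕ) → Bool,
    N68a2faeb.IsPolyTime f ∧ ∀ (n : ℕ) (D : Digraph (Fin n)) [DecidableRel D.Adj]
      (out : Fin r → Bool) (root : Fin r → Fin n), (∀ v, ¬ D.Adj v v) →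
      (∀ I : Finset (Fin n), IsIndep D I → I.card ≤ a) →
      (f (adjMatrix D, List.ofFn fun i => (out i, (root i).val)) = true ↔
        ∃ B : Fin r → Digraph (Fin n), (∀ i, if out i then IsOutBranching D (B i) (root i)
          else IsInBranching D (B i) (root i)) ∧
          ∀ i j, H.Adj i j → ∀ u v, ¬ ((B i).Adj u v ∧ (B j).Adj u v)) := by
  obtain ⟨f, h1, h2⟩ := mainPT a r H
  exact ⟨f, h1.isPolyTime, h2⟩

theorem pair (a : ℕ) : ∃ f : List (List Bool) × ℕ × ℕ → Bool, N68a2faeb.IsPolyTime f ∧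
    ∀ (n : ℕ) (D : Digraph (Fin n)) [DecidableRel D.Adj] (s t : Fin n), (∀ v, ¬ D.Adj v v) →
      (∀ I : Finset (Fin n), IsIndep D I → I.card ≤ a) →
      (f (adjMatrix D, s.val, t.val) = true ↔ HasGoodPair D s t) := by
  obtain ⟨f, h1, h2⟩ := mainPT a 2 ⊤
  have h3 : Pool.Agent.Lib.PolyTime.PT fun p : List (List Bool) × ℕ × ℕ => f (p.1, [(true, p.2.1), (false, p.2.2)]) := by
    fun_prop
  refine ⟨_, h3.isPolyTime, fun n D _ s t b c => ?_⟩
  refine (h2 n D ![true, false] ![s, t] b c).trans ⟨?_, ?_⟩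
  · rintro ⟨B, a1, a2⟩
    exact ⟨B 0, B 1, by simpa using a1 0, by simpa using a1 1, a2 0 1 (by simp)⟩
  · rintro ⟨B, B', a1, a2, a3⟩
    refine ⟨![B, B'], Fin.forall_fin_two.2 ⟨by simpa using a1, by simpa using a2⟩, ?_⟩
    simp only [Fin.forall_fin_two]
    exact ⟨⟨fun h => absurd h (by simp), fun _ => a3⟩,
      fun _ u v h => a3 u v h.symm, fun h => absurd h (by simp)⟩

end Pool.Agent.P.MP_eb0bd2_lc.A
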