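import Pool.Agent.P.MP_eb0bd2_lc.A.Lift

set_option autoImplicit false
set_option linter.unusedSectionVars false

namespace Pool.Agent.P.MP_eb0bd2_lc.A

open Finset Relation

variable {V : Type} [DecidableEq V]

/-- Tagged arcs on a vertex set. -/
def std (Vs : Finset V) : MG V (ℕ × V × V) := ⟨fun e => e.2.1, fun e => e.2.2, Vs⟩

@[simp] theorem std_src (Vs : Finset V) (e : ℕ × V × V) : (std Vs).src e = e.2.1 := rfl
@[simp] theorem std_tgt (Vs : Finset V) (e : ℕ × V × V) : (std Vs).tgt e = e.2.2 := rfl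
@[simp] theorem std_Vs (Vs : Finset V) : (std Vs).Vs = Vs := rfl

/-- The pairs of colour `i`. -/
def Col (R : List (ℕ × V × V)) (i : ℕ) (a b : V) : Prop := (i, a, b) ∈ R

/-- Short lists of coloured pairs. -/
def Short (Vs : Finset V) (k B : ℕ) (R : List (ℕ × V × V)) : Prop :=
  R.length ≤ B ∧ ∀ p ∈ R, p.1 < k ∧ p.2.1 ∈ Vs ∧ p.2.2 ∈ Vs

/-- Admissible new arcs at level `σ`. -/
def ValidN (sh : ℕ → ℕ → Prop) (arc tele : V → V → Prop) (lv : V → ℕ) (σ : ℕ) (N : List (ℕ × V × V)) : Prop :=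
  (∀ p ∈ N, tele p.2.1 p.2.2 ∨ (arc p.2.1 p.2.2 ∧ max (lv p.2.1) (lv p.2.2) = σ)) ∧
    ∀ p ∈ N, ∀ q ∈ N, p.2 = q.2 → (p.1 = q.1 ∨ sh p.1 q.1) ∨ tele p.2.1 p.2.2

/-- The table of the dynamic program. -/
def Tab (sh : ℕ → ℕ → Prop) (Vs : Finset V) (k B : ℕ) (arc tele : V → V → Prop) (lv : V → ℕ) :
    ℕ → List (ℕ × V × V) → Prop
  | 0, R => R = []
  | σ + 1, R' => Short Vs k B R' ∧ ∃ R, Tab sh Vs k B arc tele lv σ R ∧ ∃ N, Short Vs k B N ∧
      ValidN sh arc tele lv σ N ∧ ∀ p ∈ R', ReflTransGen (Col (R ++ N) p.1) p.2.1 p.2.2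

theorem Tab.sound {sh : ℕ → ℕ → Prop} {Vs : Finset V} {k B : ℕ} {arc tele : V → V → Prop} {lv : V → ℕ} {σ : ℕ}
    {R : List (ℕ × V × V)} (h : Tab sh Vs k B arc tele lv σ R) :
    ∃ χ : Finset (ℕ × V × V), (∀ p ∈ χ, arc p.2.1 p.2.2 ∧ max (lv p.2.1) (lv p.2.2) < σ) ∧
      (∀ p ∈ χ, ∀ q ∈ χ, p.2 = q.2 → p.1 = q.1 ∨ sh p.1 q.1) ∧
      ∀ p ∈ R, ReflTransGen (fun a b => (p.1, a, b) ∈ χ ∨ tele a b) p.2.1 p.2.2 := by
  classical
  induction σ generalizing R with
  | zero =>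
    obtain rfl : R = [] := h
    exact ⟨∅, by simp, by simp, by simp⟩
  | succ σ ih =>
    obtain ⟨-, R₀, h0, N, -, ⟨v1, v2⟩, hc⟩ := h
    obtain ⟨χ, c1, c2, c3⟩ := ih h0
    have hm : ∀ p ∈ N.toFinset.filter fun p => ¬ tele p.2.1 p.2.2,
        p ∈ N ∧ ¬ tele p.2.1 p.2.2 := fun p hp => by simpa using hp
    refine ⟨χ ∪ N.toFinset.filter fun p => ¬ tele p.2.1 p.2.2, fun p hp => ?_,
      fun p hp q hq e => ?_, fun p hp => rtg_of_forall (fun a b hab => ?_) (hc p hp)⟩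
    · rcases mem_union.1 hp with a | a
      · exact ⟨(c1 p a).1, (c1 p a).2.trans (by omega)⟩
      · have := (v1 p (hm p a).1).resolve_left (hm p a).2
        exact ⟨this.1, by omega⟩
    · rcases mem_union.1 hp with a | a <;> rcases mem_union.1 hq with b | b
      · exact c2 p a q b e
      · have a1 := ((v1 q (hm q b).1).resolve_left (hm q b).2).2
        have a2 := (c1 p a).2
        rw [e] at a2
        omega
      · have a1 := ((v1 p (hm p a).1).resolve_left (hm p a).2).2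
        have a2 := (c1 q b).2
        rw [e] at a1
        omega
      · exact (v2 p (hm p a).1 q (hm q b).1 e).resolve_right (hm p a).2
    · rcases List.mem_append.1 hab with a' | a'
      · exact rtg_mono (c3 _ a') fun x y h => h.imp_left (mem_union_left _)
      · refine ReflTransGen.single ?_
        by_cases ht : tele a b
        · exact Or.inr ht
        · exact Or.inl (mem_union_right _ (mem_filter.2 ⟨List.mem_toFinset.2 a', ht⟩))

theorem Tab.complete {sh : ℕ → ℕ → Prop} {Vs : Finset V} {k B c d : ℕ} {arc tele : V → V → Prop} {lv : V → ℕ}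
    (dem : ℕ → V × V) (P : ℕ → Finset (ℕ × V × V)) (hB : k * ((2 + 2 * c) * (2 + 2 * c)) ≤ B)
    (hB' : k * d ≤ B) (hd : ∀ i < k, (dem i).1 ∈ Vs ∧ (dem i).2 ∈ Vs)
    (hW : ∀ i < k, (std Vs).WF (P i))
    (p1 : ∀ i < k, ∀ e ∈ P i, tele e.2.1 e.2.2 ∨ arc e.2.1 e.2.2)
    (p2 : ∀ i < k, ∀ j < k, ∀ e ∈ P i, ∀ f ∈ P j, e.2 = f.2 →
      (i = j ∨ sh i j) ∨ tele e.2.1 e.2.2)
    (p3 : ∀ i < k, ∀ σ, ((P i).filter fun e => max (lv e.2.1) (lv e.2.2) = σ).card ≤ d)
    (p4 : ∀ i < k, ∀ σ, ((P i).filter fun e => ¬ (lv e.2.1 < σ ↔ lv e.2.2 < σ)).card ≤ c)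
    (σ : ℕ) : ∃ R, Tab sh Vs k B arc tele lv σ R ∧ ∀ i < k,
      (std Vs).Reach ((P i).filter fun e => max (lv e.2.1) (lv e.2.2) < σ) (dem i).1 (dem i).2 →
      ReflTransGen (Col R i) (dem i).1 (dem i).2 := by
  classical
  let Cr : ℕ → ℕ → Finset (ℕ × V × V) := fun i σ =>
    (P i).filter fun e => ¬ (lv e.2.1 < σ ↔ lv e.2.2 < σ)
  let Y : ℕ → ℕ → Finset V := fun i σ =>
    {(dem i).1, (dem i).2} ∪ ((Cr i σ).image (·.2.1) ∪ (Cr i σ).image (·.2.2))
  let In : ℕ → ℕ → Finset (ℕ × V × V) := fun i σ =>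
    (P i).filter fun e => max (lv e.2.1) (lv e.2.2) < σ
  have hY : ∀ i σ a, a ∈ Y i σ ↔ a = (dem i).1 ∨ a = (dem i).2 ∨
      ∃ e ∈ P i, ¬ (lv e.2.1 < σ ↔ lv e.2.2 < σ) ∧ (e.2.1 = a ∨ e.2.2 = a) := by
    intro i σ a
    simp only [Y, Cr, mem_union, mem_insert, mem_singleton, mem_image, mem_filter]
    constructor
    · rintro ((h | h) | ⟨e, h1, h2⟩ | ⟨e, h1, h2⟩)
      exacts [Or.inl h, Or.inr (Or.inl h), Or.inr (Or.inr ⟨e, h1.1, h1.2, Or.inl h2⟩),
        Or.inr (Or.inr ⟨e, h1.1, h1.2, Or.inr h2⟩)]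
    · rintro (h | h | ⟨e, h1, h2, h | h⟩)
      exacts [Or.inl (Or.inl h), Or.inl (Or.inr h), Or.inr (Or.inl ⟨e, ⟨h1, h2⟩, h⟩),
        Or.inr (Or.inr ⟨e, ⟨h1, h2⟩, h⟩)]
  have cY : ∀ i < k, ∀ σ, (Y i σ).card ≤ 2 + 2 * c := by
    intro i hi σ
    have a1 := card_union_le {(dem i).1, (dem i).2}
      ((Cr i σ).image (·.2.1) ∪ (Cr i σ).image (·.2.2))
    have a2 := card_union_le ((Cr i σ).image (·.2.1)) ((Cr i σ).image (·.2.2))
    have a3 := card_image_le (s := Cr i σ) (f := (·.2.1))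
    have a4 := card_image_le (s := Cr i σ) (f := (·.2.2))
    have a5 : (Cr i σ).card ≤ c := p4 i hi σ
    have a6 : ({(dem i).1, (dem i).2} : Finset V).card ≤ 2 := card_le_two
    simp only [Y]
    omega
  have vY : ∀ i < k, ∀ σ, ∀ a ∈ Y i σ, a ∈ Vs := by
    intro i hi σ a ha
    rcases (hY i σ a).1 ha with rfl | rfl | ⟨e, he, -, rfl | rfl⟩
    exacts [(hd i hi).1, (hd i hi).2, (hW i hi e he).1, (hW i hi e he).2]
  suffices h : ∃ R, Tab sh Vs k B arc tele lv σ R ∧ ∀ i < k, ∀ a ∈ Y i σ, ∀ b ∈ Y i σ,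
      (std Vs).Reach (In i σ) a b → ReflTransGen (Col R i) a b by
    obtain ⟨R, h1, h2⟩ := h
    exact ⟨R, h1, fun i hi => h2 i hi _ ((hY _ _ _).2 (Or.inl rfl)) _
      ((hY _ _ _).2 (Or.inr (Or.inl rfl)))⟩
  induction σ with
  | zero =>
    refine ⟨[], rfl, fun i _ a _ b _ h => ?_⟩
    exact h.induction (ReflTransGen (Col [] i) a) ReflTransGen.refl fun e he => by simp [In] at he
  | succ σ ih =>
    obtain ⟨R, h1, h2⟩ := ih
    let R' : Finset (ℕ × V × V) := (range k).biUnion fun i =>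
      ((Y i (σ + 1) ×ˢ Y i (σ + 1)).filter fun p =>
        (std Vs).Reach (In i (σ + 1)) p.1 p.2).image fun p => (i, p)
    let N : Finset (ℕ × V × V) := (range k).biUnion fun i =>
      ((P i).filter fun e => max (lv e.2.1) (lv e.2.2) = σ).image fun e => (i, e.2)
    have hR' : ∀ p, p ∈ R'.toList ↔ p.1 < k ∧ p.2.1 ∈ Y p.1 (σ + 1) ∧ p.2.2 ∈ Y p.1 (σ + 1) ∧
        (std Vs).Reach (In p.1 (σ + 1)) p.2.1 p.2.2 := by
      rintro ⟨i, a, b⟩
      simp only [R', mem_toList, mem_biUnion, mem_range, mem_image, mem_filter, mem_product]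
      constructor
      · rintro ⟨j, hj, q, hq, e⟩
        cases e
        exact ⟨hj, hq.1.1, hq.1.2, hq.2⟩
      · rintro ⟨a1, a2, a3, a4⟩
        exact ⟨i, a1, (a, b), ⟨⟨a2, a3⟩, a4⟩, rfl⟩
    have hN : ∀ p, p ∈ N.toList ↔ p.1 < k ∧ ∃ e ∈ P p.1, max (lv e.2.1) (lv e.2.2) = σ ∧
        e.2 = p.2 := by
      rintro ⟨i, a⟩
      simp only [N, mem_toList, mem_biUnion, mem_range, mem_image, mem_filter]
      constructor
      · rintro ⟨j, hj, q, hq, e⟩
        cases e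
        exact ⟨hj, q, hq.1, hq.2, rfl⟩
      · rintro ⟨a1, e, a2, a3, rfl⟩
        exact ⟨i, a1, e, ⟨a2, a3⟩, rfl⟩
    refine ⟨R'.toList, ⟨⟨?_, fun p hp => ?_⟩, R, h1, N.toList, ⟨?_, fun p hp => ?_⟩,
      ⟨fun p hp => ?_, fun p hp q hq e => ?_⟩, fun p hp => ?_⟩, fun i hi a ha b hb hr => ?_⟩
    · rw [length_toList]
      refine le_trans (card_biUnion_le_card_mul _ _ ((2 + 2 * c) * (2 + 2 * c)) fun i hi => ?_)
        (by rwa [card_range])
      refine card_image_le.trans ((card_filter_le _ _).trans ?_)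
      rw [card_product]
      have := cY i (mem_range.1 hi) (σ + 1)
      gcongr
    · obtain ⟨a1, a2, a3, -⟩ := (hR' p).1 hp
      exact ⟨a1, vY _ a1 _ _ a2, vY _ a1 _ _ a3⟩
    · rw [length_toList]
      exact le_trans (card_biUnion_le_card_mul _ _ d fun i hi =>
        card_image_le.trans (p3 i (mem_range.1 hi) σ)) (by rwa [card_range])
    · obtain ⟨a1, e, a2, -, a4⟩ := (hN p).1 hp
      rw [← a4]
      exact ⟨a1, hW _ a1 e a2⟩
    · obtain ⟨a1, e, a2, a3, a4⟩ := (hN p).1 hp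
      rw [← a4]
      exact (p1 _ a1 e a2).imp_right fun h => ⟨h, a3⟩
    · obtain ⟨a1, e₁, a2, -, a4⟩ := (hN p).1 hp
      obtain ⟨b1, e₂, b2, -, b4⟩ := (hN q).1 hq
      rw [← a4]
      exact p2 _ a1 _ b1 _ a2 _ b2 (by rw [a4, b4, e])
    · obtain ⟨i, a, b⟩ := p
      obtain ⟨hi, ha, hb, hr⟩ := (hR' _).1 hp
      simp only at hi ha hb hr ⊢
      let Z : V → Prop := fun z => z ∈ Y i σ ∨ σ ≤ lv z
      have z1 : ∀ z ∈ Y i (σ + 1), Z z := by
        intro z hz
        by_cases hl : σ ≤ lv z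
        · exact Or.inr hl
        refine Or.inl ((hY _ _ _).2 ?_)
        rcases (hY _ _ _).1 hz with h | h | ⟨e, he, h, h'⟩
        · exact Or.inl h
        · exact Or.inr (Or.inl h)
        · refine Or.inr (Or.inr ⟨e, he, ?_, h'⟩)
          rcases h' with rfl | rfl <;> omega
      have close : ∀ z₀ z, Z z₀ → Z z → (std Vs).Reach (In i σ) z₀ z →
          ReflTransGen (Col (R ++ N.toList) i) z₀ z := by
        intro z₀ z m₀ m hr
        have : z₀ = z ∨ (lv z₀ < σ ∧ lv z < σ) := by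
          refine hr.induction (fun z => z₀ = z ∨ (lv z₀ < σ ∧ lv z < σ)) (Or.inl rfl)
            fun e he h => Or.inr ?_
          have := (mem_filter.1 he).2
          simp only [std_src, std_tgt] at h ⊢
          rcases h with rfl | h <;> omega
        rcases this with rfl | ⟨l₀, l⟩
        · exact ReflTransGen.refl
        · exact rtg_mono (h2 i hi z₀ (m₀.resolve_right (by omega)) z (m.resolve_right (by omega)) hr)
            fun x y h => List.mem_append_left _ h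
      obtain ⟨z₀, m₀, r1, r2⟩ := hr.induction (fun z => ∃ z₀, Z z₀ ∧
          ReflTransGen (Col (R ++ N.toList) i) a z₀ ∧ (std Vs).Reach (In i σ) z₀ z)
        ⟨a, z1 a ha, ReflTransGen.refl, MG.Reach.refl _ _⟩ fun e he ⟨z₀, m₀, r1, r2⟩ => by
          obtain ⟨heP, hl⟩ := mem_filter.1 he
          by_cases hl' : max (lv e.2.1) (lv e.2.2) < σ
          · exact ⟨z₀, m₀, r1, r2.trans (MG.Reach.single (mem_filter.2 ⟨heP, hl'⟩))⟩
          · have m1 : Z e.2.1 := by
              by_cases h : σ ≤ lv e.2.1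
              · exact Or.inr h
              · exact Or.inl ((hY _ _ _).2 (Or.inr (Or.inr ⟨e, heP, by omega, Or.inl rfl⟩)))
            have m2 : Z e.2.2 := by
              by_cases h : σ ≤ lv e.2.2
              · exact Or.inr h
              · exact Or.inl ((hY _ _ _).2 (Or.inr (Or.inr ⟨e, heP, by omega, Or.inr rfl⟩)))
            exact ⟨e.2.2, m2, (r1.trans (close _ _ m₀ m1 r2)).tail (List.mem_append_right _
              ((hN (i, e.2.1, e.2.2)).2 ⟨hi, e, heP, by omega, rfl⟩)), MG.Reach.refl _ _⟩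
      exact r1.trans (close _ _ m₀ (z1 b hb) r2)
    · exact ReflTransGen.single ((hR' (i, a, b)).2 ⟨hi, ha, hb, hr⟩)

open Classical in
/-- The number of vertices richly reachable from `x`. -/
noncomputable def lvl (Vs : Finset V) (A : Finset (ℕ × V × V)) (K : ℕ) (x : V) : ℕ :=
  (Vs.filter fun y => (std Vs).Rich A K x y).card

/-- Mutually rich vertices. -/
def Tele (Vs : Finset V) (A : Finset (ℕ × V × V)) (K : ℕ) (x y : V) : Prop :=
  x ∈ Vs ∧ y ∈ Vs ∧ (std Vs).Rich A K x y ∧ (std Vs).Rich A K y x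

theorem lvl_le {Vs : Finset V} {A : Finset (ℕ × V × V)} {K : ℕ} {x y : V}
    (h : (std Vs).Rich A K x y) : lvl Vs A K y ≤ lvl Vs A K x := by
  classical
  refine card_le_card fun z hz => ?_
  simp only [mem_filter] at hz ⊢
  exact ⟨hz.1, h.trans hz.2⟩

theorem rich_of_lvl {Vs : Finset V} {A : Finset (ℕ × V × V)} {K : ℕ} {x y : V} (hx : x ∈ Vs)
    (h : (std Vs).Rich A K x y) (e : lvl Vs A K x ≤ lvl Vs A K y) : (std Vs).Rich A K y x := by
  classical
  have := eq_of_subset_of_card_le (s := Vs.filter fun z => (std Vs).Rich A K y z)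
    (t := Vs.filter fun z => (std Vs).Rich A K x z) (fun z hz => by
      simp only [mem_filter] at hz ⊢
      exact ⟨hz.1, h.trans hz.2⟩) (by unfold lvl at e; convert e)
  have h1 : x ∈ Vs.filter fun z => (std Vs).Rich A K x z := mem_filter.2 ⟨hx, MG.Rich.refl _ _ _⟩
  rw [← this] at h1
  exact (mem_filter.1 h1).2

theorem exists_nice {Vs : Finset V} {A F : Finset (ℕ × V × V)} {a Δ : ℕ} (K : ℕ)
    (hA : (std Vs).Rob a A Δ) (hW : (std Vs).WF A) (hF : F ⊆ A) {s t : V}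
    (hr : (std Vs).Reach F s t) : ∃ P : Finset (ℕ × V × V), (std Vs).WF P ∧
      (∀ e ∈ P, Tele Vs A K e.2.1 e.2.2 ∨ e ∈ F) ∧ (std Vs).Reach P s t ∧
      (∀ σ, (P.filter fun e => max (lvl Vs A K e.2.1) (lvl Vs A K e.2.2) = σ).card ≤
        MG.wd a Δ K * 4 * 2) ∧
      ∀ σ, (P.filter fun e => ¬ (lvl Vs A K e.2.1 < σ ↔ lvl Vs A K e.2.2 < σ)).card ≤
        2 * (MG.wd a Δ K * MG.wd a Δ K * K) + 1 := by
  classical
  let T : Finset (ℕ × V × V) := ((Vs ×ˢ Vs).filter fun p => Tele Vs A K p.1 p.2).image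
    fun p => (0, p)
  have hT : ∀ e ∈ T, Tele Vs A K e.2.1 e.2.2 := by
    intro e he
    obtain ⟨p, hp, rfl⟩ := mem_image.1 he
    exact (mem_filter.1 hp).2
  have hT' : ∀ x y, Tele Vs A K x y → (0, x, y) ∈ T := fun x y h =>
    mem_image.2 ⟨(x, y), mem_filter.2 ⟨mem_product.2 ⟨h.1, h.2.1⟩, h⟩, rfl⟩
  have h1 : (std Vs).Rich (F ∪ T) 1 s t := fun S hs ht => by
    obtain ⟨l, hl, hm⟩ := hr
    exact card_pos.2 ((hl.cut_nonempty hs ht).mono (MG.cut_mono (fun e he =>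
      mem_union_left _ (hm e (List.mem_toFinset.1 he))) _))
  obtain ⟨P, a1, -, a3⟩ := MG.exists_rows h1
  obtain ⟨hw, hm, hn⟩ := a1 0 (by simp)
  obtain ⟨pos, On, hrow, -⟩ := a3 0 (by simp)
  simp only [range_one, singleton_biUnion] at hrow
  have hP : ∀ e ∈ (P 0).toFinset, Tele Vs A K e.2.1 e.2.2 ∨ e ∈ F := fun e he =>
    (mem_union.1 (hm e (List.mem_toFinset.1 he))).symm.imp_left (hT e)
  have hWP : (std Vs).WF (P 0).toFinset := fun e he =>
    (hP e he).elim (fun h => ⟨h.1, h.2.1⟩) fun h => hW e (hF h)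
  have hshort : ∀ u ∈ On, ∀ v ∈ On, Tele Vs A K u v → pos v ≤ pos u + 1 := by
    intro u hu v hv h
    by_cases hf : (0, u, v) ∈ (P 0).toFinset
    · exact (hrow.step _ hf).le
    · exact hrow.short u hu v hv ⟨(0, u, v), mem_sdiff.2 ⟨mem_union_right _ (hT' u v h), hf⟩,
        rfl, rfl⟩
  refine ⟨(P 0).toFinset, hWP, hP, hw.reach, fun σ => ?_, fun σ => ?_⟩
  · let X := Vs.filter fun v => v ∈ On ∧ lvl Vs A K v = σ
    obtain ⟨Gs, g1, g2, g3⟩ := MG.exists_gen (r := (std Vs).Rich A K) (MG.Rich.refl A K)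
      (fun _ _ _ => MG.Rich.trans) X (MG.wd a Δ K)
      fun Y hY hc => hA.exists_rich K (hY.trans (filter_subset _ _)) hc
    choose Nr n1 n2 using hrow.near
    have hX : X ⊆ Gs.biUnion fun g => Nr (pos g - 1) ∪ Nr (pos g) := by
      intro y hy
      obtain ⟨g, hg, r⟩ := g3 y hy
      obtain ⟨y1, y2, y3⟩ := mem_filter.1 hy
      obtain ⟨x1, x2, x3⟩ := mem_filter.1 (g1 hg)
      have r' := rich_of_lvl x1 r (by omega)
      have b1 := hshort g x2 y y2 ⟨x1, y1, r, r'⟩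
      have b2 := hshort y y2 g x2 ⟨y1, x1, r', r⟩
      refine mem_biUnion.2 ⟨g, hg, ?_⟩
      by_cases h : pos g ≤ pos y
      · exact mem_union_right _ (n2 _ y y2 h b1)
      · exact mem_union_left _ (n2 _ y y2 (by omega) (by omega))
    have cX : X.card ≤ MG.wd a Δ K * 4 := by
      refine (card_le_card hX).trans ((card_biUnion_le_card_mul _ _ 4 fun g _ => ?_).trans
        (by gcongr))
      have := n1 (pos g - 1)
      have := n1 (pos g)
      exact (card_union_le _ _).trans (by omega)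
    have hsub : ((P 0).toFinset.filter fun e => max (lvl Vs A K e.2.1) (lvl Vs A K e.2.2) = σ) ⊆
        X.biUnion fun x => (P 0).toFinset.filter fun e =>
          (std Vs).src e = x ∨ (std Vs).tgt e = x := by
      intro e he
      obtain ⟨he, hl⟩ := mem_filter.1 he
      by_cases h : lvl Vs A K e.2.1 = σ
      · exact mem_biUnion.2 ⟨e.2.1, mem_filter.2 ⟨(hWP e he).1, hrow.on_src e he, h⟩,
          mem_filter.2 ⟨he, Or.inl rfl⟩⟩
      · exact mem_biUnion.2 ⟨e.2.2, mem_filter.2 ⟨(hWP e he).2, hrow.on_tgt e he, by omega⟩,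
          mem_filter.2 ⟨he, Or.inr rfl⟩⟩
    exact (card_le_card hsub).trans ((card_biUnion_le_card_mul _ _ 2 fun x _ =>
      hw.deg hn x).trans (by gcongr))
  · let L : Set V := {v | lvl Vs A K v < σ}
    have c1 := hA.card_cut_le_of_closed hW K L fun g _ hg g' _ r => lt_of_le_of_lt (lvl_le r) hg
    have c2 : (std Vs).cut (P 0).toFinset L ⊆ (std Vs).cut A L := by
      intro e he
      obtain ⟨b1, b2, b3⟩ := MG.mem_cut.1 he
      refine MG.mem_cut.2 ⟨hF ((hP e b1).resolve_left fun h => ?_), b2, b3⟩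
      exact b3 (lt_of_le_of_lt (lvl_le h.2.2.1) b2)
    have c3 := MG.sum_indicator (G := std Vs) (P 0).toFinset L
    rw [List.sum_toFinset _ (MG.nodup_of_verts hn),
      hw.sum_eq fun v => if v ∈ L then (1 : ℤ) else 0] at c3
    have c4 := card_le_card c2
    have c5 : ((P 0).toFinset.filter fun e => ¬ (lvl Vs A K e.2.1 < σ ↔ lvl Vs A K e.2.2 < σ)) ⊆
        (std Vs).cut (P 0).toFinset L ∪ (std Vs).cut (P 0).toFinset Lᶜ := by
      intro e he
      obtain ⟨he, hl⟩ := mem_filter.1 he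
      simp only [mem_union, MG.mem_cut, L, he, true_and, std_src, std_tgt, Set.mem_compl_iff,
        Set.mem_ofPred_eq]
      tauto
    have c6 := (card_le_card c5).trans (card_union_le _ _)
    split_ifs at c3 <;> omega

/-- Correctness of the dynamic program. -/
theorem dp_correct (a k Δ : ℕ) : ∃ K B : ℕ, ∀ (Vs : Finset V) (A : Finset (ℕ × V × V))
    (dem : ℕ → V × V) (sh : ℕ → ℕ → Prop) (m : ℕ), m ≤ k → (std Vs).Rob a A Δ → (std Vs).WF A → (∀ e ∈ A, e.1 = 0) →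
    (∀ i < m, (dem i).1 ∈ Vs ∧ (dem i).2 ∈ Vs) →
    ((std Vs).CF A dem (fun i j e => e.1 = 0 ∧ sh i j) (range m) ↔
      ∃ R, Tab sh Vs k B (fun x y => (0, x, y) ∈ A) (Tele Vs A K) (lvl Vs A K) (Vs.card + 1) R ∧
        ∀ i < m, ReflTransGen (Col R i) (dem i).1 (dem i).2) := by
  classical
  obtain ⟨K, hK⟩ := MG.lift_tele (V := V) (E := ℕ × V × V) (ι := ℕ) a k Δ
  set w := MG.wd a Δ K
  refine ⟨K, k * ((2 + 2 * (2 * (w * w * K) + 1)) * (2 + 2 * (2 * (w * w * K) + 1))) +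
    k * (w * 4 * 2), fun Vs A dem sh m hm hA hW h0 hd => ⟨?_, ?_⟩⟩
  · rintro ⟨F, h1, h2⟩
    rcases Nat.eq_zero_or_pos m with rfl | hm0
    · obtain ⟨R, hR, -⟩ := Tab.complete (sh := sh) (Vs := Vs) (k := 0) (B := 0) (c := 0) (d := 0)
        (arc := fun x y => (0, x, y) ∈ A) (tele := Tele Vs A K) (lv := lvl Vs A K) dem
        (fun _ => ∅) (by simp) (by simp) (by simp) (by simp) (by simp) (by simp) (by simp)
        (by simp) (Vs.card + 1)
      have mono : ∀ k B σ R, Tab sh Vs 0 0 (fun x y => (0, x, y) ∈ A) (Tele Vs A K) (lvl Vs A K) σ R →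
          Tab sh Vs k B (fun x y => (0, x, y) ∈ A) (Tele Vs A K) (lvl Vs A K) σ R := by
        intro k B σ
        have sh' : ∀ R, Short Vs 0 0 R → Short Vs k B R := fun R h =>
          ⟨h.1.trans (Nat.zero_le _), fun p hp => absurd (h.2 p hp).1 (by simp)⟩
        induction σ with
        | zero => exact fun R h => h
        | succ σ ih =>
          rintro R ⟨a1, R₀, a2, N, a3, a4⟩
          exact ⟨sh' _ a1, R₀, ih _ a2, N, sh' _ a3, a4⟩
      exact ⟨R, mono _ _ _ _ hR, by simp⟩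
    have hex : ∀ i, ∃ P : Finset (ℕ × V × V), (std Vs).WF P ∧
        (∀ e ∈ P, Tele Vs A K e.2.1 e.2.2 ∨ (i < m ∧ e ∈ F i)) ∧
        (i < m → (std Vs).Reach P (dem i).1 (dem i).2) ∧
        (∀ σ, (P.filter fun e => max (lvl Vs A K e.2.1) (lvl Vs A K e.2.2) = σ).card ≤ w * 4 * 2) ∧
        ∀ σ, (P.filter fun e => ¬ (lvl Vs A K e.2.1 < σ ↔ lvl Vs A K e.2.2 < σ)).card ≤
          2 * (w * w * K) + 1 := by
      intro i
      by_cases hi : i < m
      · obtain ⟨P, a1, a2, a3, a4⟩ := exists_nice K hA hW (h1 i (mem_range.2 hi)).1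
          (h1 i (mem_range.2 hi)).2
        exact ⟨P, a1, fun e he => (a2 e he).imp_right fun h => ⟨hi, h⟩, fun _ => a3, a4⟩
      · exact ⟨∅, fun e he => by simp at he, by simp, fun h => absurd h hi, by simp, by simp⟩
    choose P a1 a2 a3 a4 a5 using hex
    obtain ⟨R, hR, hc⟩ := Tab.complete (sh := sh) (Vs := Vs) (k := k)
      (B := k * ((2 + 2 * (2 * (w * w * K) + 1)) * (2 + 2 * (2 * (w * w * K) + 1))) +
        k * (w * 4 * 2)) (c := 2 * (w * w * K) + 1) (d := w * 4 * 2)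
      (arc := fun x y => (0, x, y) ∈ A) (tele := Tele Vs A K) (lv := lvl Vs A K)
      (fun i => if i < m then dem i else dem 0) P (Nat.le_add_right _ _) (Nat.le_add_left _ _)
      (fun i _ => by split_ifs with h; exacts [hd i h, hd 0 hm0]) (fun i _ => a1 i)
      (fun i _ e he => (a2 i e he).imp_right fun h => by
        have hA' := (h1 i (mem_range.2 h.1)).1 h.2
        rw [← h0 e hA']
        exact hA')
      (fun i _ j _ e he f hf hef => by
        by_cases ht : Tele Vs A K e.2.1 e.2.2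
        · exact Or.inr ht
        obtain ⟨hi, b1⟩ := (a2 i e he).resolve_left ht
        obtain ⟨hj, b2⟩ := (a2 j f hf).resolve_left (hef ▸ ht)
        refine Or.inl (or_iff_not_imp_left.2 fun hij => ?_)
        have : e = f := Prod.ext (by rw [h0 e ((h1 i (mem_range.2 hi)).1 b1),
          h0 f ((h1 j (mem_range.2 hj)).1 b2)]) hef
        exact (h2 i (mem_range.2 hi) j (mem_range.2 hj) hij e b1 (this ▸ b2)).2)
      (fun i _ => a4 i) (fun i _ => a5 i) (Vs.card + 1)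
    refine ⟨R, hR, fun i hi => ?_⟩
    have := hc i (by omega)
    simp only [hi, if_true] at this
    refine this ((a3 i hi).mono fun e he => mem_filter.2 ⟨he, ?_⟩)
    have b : ∀ x, lvl Vs A K x ≤ Vs.card := fun x => card_filter_le _ _
    have := b e.2.1
    have := b e.2.2
    omega
  · rintro ⟨R, hR, hc⟩
    obtain ⟨χ, c1, c2, c3⟩ := hR.sound
    let T : Finset (ℕ × V × V) := (range m).image (· + 1) ×ˢ
      ((Vs ×ˢ Vs).filter fun p => Tele Vs A K p.1 p.2)
    have hT : ∀ e ∈ T, Tele Vs A K e.2.1 e.2.2 := fun e he => (mem_filter.1 (mem_product.1 he).2).2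
    refine hK (std Vs) A T dem _ (range m) (by simpa using hm) hA hW
      (fun e he => ⟨(hT e he).1, (hT e he).2.1⟩) (fun i hi => hd i (mem_range.1 hi))
      (fun e he => (hT e he).2.2) (fun e he i j h => by
        obtain ⟨x, -, hx⟩ := mem_image.1 (mem_product.1 he).1
        omega)
      ⟨fun i => (A.filter fun e => (i, e.2) ∈ χ) ∪ T.filter fun e => e.1 = i + 1,
        fun i hi => ⟨union_subset_union (filter_subset _ _) (filter_subset _ _), ?_⟩,
        fun i hi j hj hij => ?_⟩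
    · rw [MG.reach_iff_rtg]
      refine rtg_of_forall (fun a b hab => rtg_mono (c3 _ hab) fun x y h => ?_) (hc i (mem_range.1 hi))
      rcases h with h | h
      · exact ⟨(0, x, y), mem_union_left _ (mem_filter.2 ⟨(c1 _ h).1, h⟩), rfl, rfl⟩
      · exact ⟨(i + 1, x, y), mem_union_right _ (mem_filter.2 ⟨mem_product.2
          ⟨mem_image_of_mem _ hi, mem_filter.2 ⟨mem_product.2 ⟨h.1, h.2.1⟩, h⟩⟩, rfl⟩), rfl, rfl⟩
    · intro e he he'
      simp only [mem_union, mem_filter] at he he'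
      rcases he with he | he <;> rcases he' with he' | he'
      · exact ⟨h0 e he.1, (c2 _ he.2 _ he'.2 rfl).resolve_left hij⟩
      · have := h0 e he.1; omega
      · have := h0 e he'.1; omega
      · omega

end Pool.Agent.P.MP_eb0bd2_lc.A
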