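import Pool.Agent.P.MP_eb0bd2_lc.A.Algo

set_option autoImplicit false

namespace Pool.Agent.P.MP_eb0bd2_lc.A

open Pool.Agent.Lib.PolyTime Relation Finset

/-- The demands between the roots and the vertices of `X`. -/
def dlist (L : List (Bool × ℕ)) (X : List ℕ) : List (ℕ × ℕ × ℕ) :=
  (List.range L.length).flatMap fun j => X.map fun x => (j, if (L.getD j (true, 0)).1
    then ((L.getD j (true, 0)).2, x) else (x, (L.getD j (true, 0)).2))

theorem dem_dlist (L : List (Bool × ℕ)) (X : List ℕ) :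
    MG.Dem (fun j => L.getD j (true, 0)) L.length X.toFinset (dlist L X) := by
  rintro ⟨j, p⟩
  simp only [dlist, List.mem_flatMap, List.mem_range, List.mem_map, Prod.mk.injEq,
    List.mem_toFinset]
  constructor
  · rintro ⟨_, h1, x, h2, rfl, rfl⟩
    exact ⟨h1, x, h2, rfl⟩
  · rintro ⟨h1, x, h2, rfl⟩
    exact ⟨j, h1, x, h2, rfl, rfl⟩

theorem length_dlist (L : List (Bool × ℕ)) (X : List ℕ) :
    (dlist L X).length = L.length * X.length := by
  simp [dlist, List.length_flatMap]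

/-- The test run on one guess. -/
def Test (C : List (ℕ × ℕ)) (k K B c r : ℕ) (Vs : Finset ℕ) (A : Finset (ℕ × ℕ × ℕ))
    (X : Finset ℕ) (Φ : Finset (ℕ × ℕ × ℕ)) (D : List (ℕ × ℕ × ℕ)) : Prop :=
  (std Vs).Perc c r A Φ X ∧ (std Vs).rev.Perc c r A Φ X ∧
  DPok (MG.Sh (fun i j => (i, j) ∈ C) D) k K B Vs (A \ Φ) (D.map Prod.snd) (0, 0)

/-- The algorithm accepts. -/
def Acc (C : List (ℕ × ℕ)) (x p k K B c r : ℕ) (vs : List ℕ) (A : List (ℕ × ℕ × ℕ))
    (L : List (Bool × ℕ)) : Prop :=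
  ∃ X ∈ tuples x vs, ∃ Φ ∈ tuples p A,
    Test C k K B c r vs.toFinset A.toFinset X.toFinset Φ.toFinset (dlist L X)

theorem exists_acc (a r : ℕ) (hr : 0 < r) : ∃ x p k K B c : ℕ, ∀ (C : List (ℕ × ℕ)) (vs : List ℕ)
    (A : List (ℕ × ℕ × ℕ)) (L : List (Bool × ℕ)), (std vs.toFinset).WF A.toFinset →
    (std vs.toFinset).Rob a A.toFinset 0 → (∀ e ∈ A, e.1 = 0) → L.length ≤ r →
    (∀ j < L.length, (L.getD j (true, 0)).2 ∈ vs) → (Acc C x p k K B c r vs A L ↔
      (std vs.toFinset).GP A.toFinset (fun j => L.getD j (true, 0)) (fun i j => (i, j) ∈ C)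
        L.length) := by
  obtain ⟨x, hx⟩ : ∃ x, x = 4 * (a * (2 * (r + r * (2 * r + 1)) + 1)) := ⟨_, rfl⟩
  obtain ⟨c, hc⟩ : ∃ c, c = r * (x * 2) + r := ⟨_, rfl⟩
  obtain ⟨p, hp⟩ : ∃ p, p = 2 * (a * (2 * c + 1) * c) := ⟨_, rfl⟩
  obtain ⟨K, B, h⟩ := dp_correct (V := ℕ) a (r * x) p
  refine ⟨x, p, r * x, K, B, c, fun C vs A L hW hR h0 hL hs => ?_⟩
  have key : ∀ (X : List ℕ) (Φ : Finset (ℕ × ℕ × ℕ)), Φ.card ≤ p → X ∈ tuples x vs →
      (Test C (r * x) K B c r vs.toFinset A.toFinset X.toFinset Φ (dlist L X) ↔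
        (std vs.toFinset).Red c r A.toFinset (fun i j => (i, j) ∈ C) X.toFinset Φ (dlist L X)
          (0, 0)) := by
    intro X Φ c1 d1
    obtain ⟨d1, e1⟩ := mem_tuples.1 d1
    have h0' : ∀ e ∈ A.toFinset \ Φ, e.1 = 0 := fun e he =>
      h0 e (List.mem_toFinset.1 (mem_sdiff.1 he).1)
    refine and_congr_right fun _ => and_congr_right fun _ =>
      (h _ _ _ _ _ (by rw [List.length_map, length_dlist]; gcongr) ?_ (hW.mono sdiff_subset)
        h0' fun i hi => ?_).symm.trans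
        ⟨fun h => h.imp fun _ _ _ _ h => h.2, fun h => h.imp fun _ _ e he h => ⟨h0' e he, h⟩⟩
    · simpa using hR.sdiff ((MG.deg_card Φ).of_le c1)
    · have : ((dlist L X).map Prod.snd).getD i (0, 0) ∈ (dlist L X).map Prod.snd := by
        rw [List.getD_eq_getElem _ _ hi]
        exact List.getElem_mem hi
      obtain ⟨y, hy, e⟩ := List.mem_map.1 this
      obtain ⟨a1, z, a2, a3⟩ := (dem_dlist L X y).1 hy
      have a4 := List.mem_toFinset.2 (hs _ a1)
      have a5 := List.mem_toFinset.2 (e1 z (List.mem_toFinset.1 a2))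
      rw [← e, a3]
      split_ifs
      exacts [⟨a4, a5⟩, ⟨a5, a4⟩]
  constructor
  · rintro ⟨X, a1, Φ, a3, b⟩
    exact ((key _ _ ((List.toFinset_card_le _).trans (mem_tuples.1 a3).1) a1).1 b).gp hW
      (dem_dlist L X) ((List.toFinset_card_le _).trans (mem_tuples.1 a1).1) hL hr hc.ge
  · intro b
    obtain ⟨X, Φ, a1, a2, a3, a4, a7⟩ := b.red hW hR hL hr c
    rw [← hx] at a2
    rw [← hp] at a4
    have c1 : X.toList ∈ tuples x vs := mem_tuples.2 ⟨by simpa using a2, fun x hx => by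
      simpa using a1 (mem_toList.1 hx)⟩
    refine ⟨X.toList, c1, Φ.toList, mem_tuples.2 ⟨by simpa using a4, fun x hx => ?_⟩, ?_⟩
    · simpa using a3 (mem_toList.1 hx)
    · rw [toList_toFinset Φ]
      refine (key _ _ a4 c1).2 ?_
      have := dem_dlist L X.toList
      rw [toList_toFinset] at this ⊢
      exact a7 _ _ this

variable {α : Type} [N487b59b3 α]

@[fun_prop] theorem pt_dlist {L : α → List (Bool × ℕ)} {X : α → List ℕ} (hL : PT L) (hX : PT X) :
    PT fun a => dlist (L a) (X a) := by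
  unfold dlist; fun_prop

theorem ptp_test (C : List (ℕ × ℕ)) (k K B c r : ℕ) {vs X : α → List ℕ}
    {A Φ D : α → List (ℕ × ℕ × ℕ)} (hv : PT vs) (hX : PT X) (hA : PT A) (h1 : PT Φ) (h3 : PT D)
    (hW : ∀ a, (std (vs a).toFinset).WF (A a).toFinset) :
    PTP fun a => Test C k K B c r (vs a).toFinset (A a).toFinset (X a).toFinset
      (Φ a).toFinset (D a) := by
  refine PTP.and (ptp_perc c r hv hX hA h1 (fun _ => rfl) (by simp only [std_src]; fun_prop)
    (by simp only [std_tgt]; fun_prop) hW) (PTP.and (ptp_perc c r hv hX hA h1 (fun _ => rfl)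
      (by simp only [MG.rev_src, std_tgt]; fun_prop)
      (by simp only [MG.rev_tgt, std_src]; fun_prop) fun a => (hW a).rev) ?_)
  refine (ptp_dpok k K B (A := fun a => (A a).filter fun e => decide (e ∉ Φ a))
    (D := fun a => (D a).map Prod.snd) (d := fun _ => (0, 0))
    (sh := fun a => MG.Sh (fun i j => (i, j) ∈ C) (D a)) hv (by fun_prop) (by fun_prop)
    (by fun_prop) (by unfold MG.Sh; fun_prop)).congr fun a => ?_
  rw [iff_iff_eq]
  congr 1
  ext e
  simp

theorem ptp_acc (C : List (ℕ × ℕ)) (x p k K B c r : ℕ) {vs : α → List ℕ}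
    {A : α → List (ℕ × ℕ × ℕ)} {L : α → List (Bool × ℕ)} (hv : PT vs) (hA : PT A) (hL : PT L)
    (hW : ∀ a, (std (vs a).toFinset).WF (A a).toFinset) :
    PTP fun a => Acc C x p k K B c r (vs a) (A a) (L a) :=
  PTP.exists_mem (by fun_prop) (PTP.exists_mem (by fun_prop)
    (ptp_test C k K B c r (by fun_prop) (by fun_prop) (by fun_prop) (by fun_prop) (by fun_prop)
      fun _ => hW _))

/-- The arcs of a Boolean matrix. -/
def arcs (M : List (List Bool)) : List (ℕ × ℕ × ℕ) :=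
  (List.range M.length).flatMap fun u =>
    ((List.range M.length).filter fun v => (M.getD u []).getD v false).map fun v => (0, u, v)

theorem mem_arcs {M : List (List Bool)} {e : ℕ × ℕ × ℕ} : e ∈ arcs M ↔
    e.1 = 0 ∧ e.2.1 < M.length ∧ e.2.2 < M.length ∧ (M.getD e.2.1 []).getD e.2.2 false = true := by
  obtain ⟨i, u, v⟩ := e
  simp only [arcs, List.mem_flatMap, List.mem_map, List.mem_filter, List.mem_range, Prod.mk.injEq]
  constructor
  · rintro ⟨u, h1, v, ⟨h2, h3⟩, rfl, rfl, rfl⟩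
    exact ⟨rfl, h1, h2, h3⟩
  · rintro ⟨rfl, h1, h2, h3⟩
    exact ⟨u, h1, v, ⟨h2, h3⟩, rfl, rfl, rfl⟩

theorem wf_arcs (M : List (List Bool)) :
    (std (List.range M.length).toFinset).WF (arcs M).toFinset := fun e he => by
  have := mem_arcs.1 (List.mem_toFinset.1 he)
  simp [this.2.1, this.2.2.1]

theorem exists_alg (a r : ℕ) (C : List (ℕ × ℕ)) :
    ∃ f : List (List Bool) × List (Bool × ℕ) → Bool, PT f ∧
    ∀ (M : List (List Bool)) (L : List (Bool × ℕ)),
      (std (List.range M.length).toFinset).Rob a (arcs M).toFinset 0 → L.length ≤ r →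
      (∀ j < L.length, (L.getD j (true, 0)).2 < M.length) →
      (f (M, L) = true ↔ (std (List.range M.length).toFinset).GP (arcs M).toFinset
        (fun j => L.getD j (true, 0)) (fun i j => (i, j) ∈ C) L.length) := by
  obtain ⟨x, p, k, K, B, c, h⟩ := exists_acc a (r + 1) (by omega)
  obtain ⟨f, h1, h2⟩ := ptp_acc C x p k K B c (r + 1)
    (vs := fun a : List (List Bool) × List (Bool × ℕ) => List.range a.1.length)
    (A := fun a => arcs a.1) (L := fun a => a.2)
    (by fun_prop) (by unfold arcs; fun_prop) (by fun_prop) fun a => wf_arcs _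
  exact ⟨f, h1, fun M L a b c => (h2 _).trans (h _ _ _ _ (wf_arcs M) a
    (fun e he => (mem_arcs.1 he).1) (Nat.le_succ_of_le b) fun j hj => List.mem_range.2 (c j hj))⟩

end Pool.Agent.P.MP_eb0bd2_lc.A
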