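import Pool.Agent.P.MP_eb0bd2_lc.A.DP

set_option autoImplicit false
set_option linter.unusedSectionVars false

namespace Pool.Agent.P.MP_eb0bd2_lc.A

open Finset Relation

namespace MG

variable {V E : Type} {G : MG V E} [DecidableEq V] [DecidableEq E]

theorem exists_tree [Nonempty E] {H : Finset E} {s : V} (h : ∀ v ∈ G.Vs, G.Reach H s v) :
    ∃ (p : V → E) (d : V → ℕ), ∀ v ∈ G.Vs, v ≠ s →
      p v ∈ H ∧ G.tgt (p v) = v ∧ d (G.src (p v)) < d v := by
  let d : V → ℕ := fun v => sInf {n | ∃ l, G.Walk s v l ∧ (∀ e ∈ l, e ∈ H) ∧ l.length = n}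
  have : ∀ v, ∃ e, v ∈ G.Vs → v ≠ s → e ∈ H ∧ G.tgt e = v ∧ d (G.src e) < d v := by
    intro v
    by_cases hv : v ∈ G.Vs ∧ v ≠ s
    swap
    · exact ⟨Classical.arbitrary E, fun a b => absurd ⟨a, b⟩ hv⟩
    obtain ⟨l₀, a, b⟩ := h v hv.1
    obtain ⟨l, h1, h2, h3⟩ := Nat.sInf_mem
      (s := {n | ∃ l, G.Walk s v l ∧ (∀ e ∈ l, e ∈ H) ∧ l.length = n}) ⟨_, l₀, a, b, rfl⟩
    rcases List.eq_nil_or_concat' l with rfl | ⟨l', e, rfl⟩
    · exact absurd (walk_nil_iff.1 h1).symm hv.2
    obtain ⟨w1, w2⟩ := h1.split_arc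
    refine ⟨e, fun _ _ => ⟨h2 e (by simp), walk_nil_iff.1 w2, ?_⟩⟩
    have : d (G.src e) ≤ l'.length := Nat.sInf_le ⟨l', w1, fun f hf => h2 f (by simp [hf]), rfl⟩
    have h4 : d v = l'.length + 1 := by simpa using h3.symm
    omega
  choose p hp using this
  exact ⟨p, d, hp⟩

theorem exists_subtrees [Nonempty E] {H : Finset E} {s : V} (hW : G.WF H)
    (h : ∀ v ∈ G.Vs, G.Reach H s v) :
    ∃ Tr : Finset V → Finset E, (∀ X Y, X ⊆ Y → Tr X ⊆ Tr Y) ∧ (∀ X, Tr X ⊆ H) ∧
      (∀ X ⊆ G.Vs, ∀ x ∈ X, G.Reach (Tr X) s x) ∧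
      ∀ X k, k * (G.Vs.filter fun u =>
        k + 2 ≤ ((Tr X).filter fun e => G.src e = u ∨ G.tgt e = u).card).card ≤ X.card := by
  classical
  obtain ⟨p, d, hp⟩ := exists_tree h
  let st : V → V → Prop := fun a b => a ∈ G.Vs ∧ a ≠ s ∧ b = G.src (p a)
  let An : Finset V → Finset V := fun X => G.Vs.filter fun v => ∃ x ∈ X, ReflTransGen st x v
  have up : ∀ X, ∀ v ∈ (An X).erase s, G.src (p v) ∈ An X := by
    intro X v hv
    obtain ⟨h1, h2⟩ := mem_erase.1 hv
    obtain ⟨h2, x, hx, h3⟩ := mem_filter.1 h2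
    exact mem_filter.2 ⟨(hW _ (hp v h2 h1).1).1, x, hx, h3.tail ⟨h2, h1, rfl⟩⟩
  refine ⟨fun X => ((An X).erase s).image p, fun X Y hXY => ?_, fun X e he => ?_,
    fun X hX x hx => ?_, fun X k => ?_⟩
  · refine image_subset_image (erase_subset_erase _ fun v hv => ?_)
    obtain ⟨h2, x, hx, h3⟩ := mem_filter.1 hv
    exact mem_filter.2 ⟨h2, x, hXY hx, h3⟩
  · obtain ⟨v, hv, rfl⟩ := mem_image.1 he
    exact (hp v (mem_filter.1 (mem_erase.1 hv).2).1 (mem_erase.1 hv).1).1
  · have : ∀ n v, d v = n → v ∈ An X → G.Reach (((An X).erase s).image p) s v := by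
      intro n
      induction n using Nat.strong_induction_on with
      | _ n ih =>
        intro v hn hv
        by_cases e : v = s
        · exact e ▸ Reach.refl _ _
        have hv' := mem_erase.2 ⟨e, hv⟩
        obtain ⟨-, a2, a3⟩ := hp v (mem_filter.1 hv).1 e
        have := (ih _ (hn ▸ a3) _ rfl (up X v hv')).trans (Reach.single (mem_image_of_mem p hv'))
        rwa [a2] at this
    exact this _ x rfl (mem_filter.2 ⟨hX hx, x, hx, ReflTransGen.refl⟩)
  · let fb : V → Finset V := fun u => ((An X).erase s).filter fun v => G.src (p v) = u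
    have e1 := card_eq_sum_card_fiberwise (f := fun v => G.src (p v)) (s := (An X).erase s)
      (t := An X) (up X)
    let Hs := (An X).filter fun u => k + 1 ≤ (fb u).card
    have s1 : (G.Vs.filter fun u => k + 2 ≤ ((((An X).erase s).image p).filter
        fun e => G.src e = u ∨ G.tgt e = u).card) ⊆ Hs := by
      intro u hu
      have a0 := (mem_filter.1 hu).2
      rw [filter_or] at a0
      have a1 := a0.trans (card_union_le _ _)
      have a3 : ((((An X).erase s).image p).filter fun e => G.tgt e = u).card ≤ 1 :=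
        card_le_one.2 fun e he f hf => by
          obtain ⟨e1, e2⟩ := mem_filter.1 he
          obtain ⟨f1, f2⟩ := mem_filter.1 hf
          obtain ⟨v, hv, rfl⟩ := mem_image.1 e1
          obtain ⟨w, hw, rfl⟩ := mem_image.1 f1
          rw [(hp v (mem_filter.1 (mem_erase.1 hv).2).1 (mem_erase.1 hv).1).2.1] at e2
          rw [(hp w (mem_filter.1 (mem_erase.1 hw).2).1 (mem_erase.1 hw).1).2.1] at f2
          rw [e2, f2]
      have a4 : ((((An X).erase s).image p).filter fun e => G.src e = u).card ≤ (fb u).card := by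
        rw [filter_image]
        exact card_image_le
      have a2 : k + 1 ≤ (fb u).card := by omega
      obtain ⟨v, hv⟩ : (fb u).Nonempty := card_pos.1 (by omega)
      obtain ⟨b1, b2⟩ := mem_filter.1 hv
      exact mem_filter.2 ⟨b2 ▸ up X v b1, a2⟩
    have s2 : ∑ u ∈ An X, ((if u ∉ X then 1 else 0) + k * (if k + 1 ≤ (fb u).card then 1 else 0)) ≤
        ∑ u ∈ An X, (fb u).card := by
      refine sum_le_sum fun u hu => ?_
      have : u ∉ X → 1 ≤ (fb u).card := by
        intro hX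
        obtain ⟨h2, x, hx, h3⟩ := mem_filter.1 hu
        rcases h3.cases_tail with rfl | ⟨a, h4, h5, h6, h7⟩
        · exact absurd hx hX
        · exact card_pos.2 ⟨a, mem_filter.2 ⟨mem_erase.2 ⟨h6, mem_filter.2 ⟨h5, x, hx, h4⟩⟩,
            h7.symm⟩⟩
      split_ifs with a b b
      · omega
      · omega
      · omega
      · have := this a; omega
    rw [sum_add_distrib, ← mul_sum, ← card_filter, ← card_filter] at s2
    have s3 : (An X).card ≤ ((An X).filter fun u => u ∉ X).card + X.card := by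
      refine le_trans (card_le_card fun u hu => ?_) (card_union_le _ _)
      by_cases a : u ∈ X
      · exact mem_union_right _ a
      · exact mem_union_left _ (mem_filter.2 ⟨hu, a⟩)
    have s4 := Nat.mul_le_mul_left k (card_le_card s1)
    have s5 : ((An X).erase s).card ≤ (An X).card := card_erase_le
    simp only [Hs, fb] at *
    omega

theorem Rob.exists_order {A : Finset E} {a Δ : ℕ} (h : G.Rob a A Δ) :
    ∃ ρ : V → ℕ, ∀ f, (G.Vs.filter fun v =>
      (A.filter fun e => G.tgt e = v ∧ ρ (G.src e) < ρ v).card ≤ f).card ≤ a * (2 * f + Δ + 1) := by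
  classical
  have key : ∀ R ⊆ G.Vs, ∃ ρ : V → ℕ, ∀ f, (R.filter fun v =>
      (R.filter fun u => (u ≠ v ∧ G.rev.Arc A v u) ∧ ρ u < ρ v).card ≤ f).card ≤
        a * (2 * f + Δ + 1) := by
    intro R
    induction R using Finset.strongInduction with
    | H R ih =>
      intro hR
      rcases R.eq_empty_or_nonempty with rfl | hne
      · exact ⟨fun _ => 0, by simp⟩
      obtain ⟨v₀, hv₀, hmax⟩ := exists_max_image R
        (fun v => (R.filter fun u => u ≠ v ∧ G.rev.Arc A v u).card) hne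
      obtain ⟨ρ, hρ⟩ := ih (R.erase v₀) (erase_ssubset hv₀) ((erase_subset _ _).trans hR)
      refine ⟨Function.update ρ v₀ (R.sup ρ + 1), fun f => ?_⟩
      by_cases hf : (R.filter fun u => u ≠ v₀ ∧ G.rev.Arc A v₀ u).card ≤ f
      · exact (card_filter_le _ _).trans (h.rev.card_le hR
          (by convert fun v hv => (hmax v hv).trans hf))
      refine le_trans (card_le_card fun v hv => ?_) (hρ f)
      obtain ⟨a1, a2⟩ := mem_filter.1 hv
      have hne : v ≠ v₀ := by
        rintro rfl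
        refine hf (le_trans (card_le_card fun u hu => ?_) a2)
        obtain ⟨b1, b2⟩ := mem_filter.1 hu
        refine mem_filter.2 ⟨b1, b2, ?_⟩
        rw [Function.update_self, Function.update_of_ne b2.1]
        exact Nat.lt_succ_of_le (le_sup b1)
      refine mem_filter.2 ⟨mem_erase.2 ⟨hne, a1⟩, le_trans (card_le_card fun u hu => ?_) a2⟩
      obtain ⟨b1, b2, b3⟩ := mem_filter.1 hu
      refine mem_filter.2 ⟨mem_of_mem_erase b1, b2, ?_⟩
      rwa [Function.update_of_ne hne, Function.update_of_ne (mem_erase.1 b1).1]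
  obtain ⟨ρ, hρ⟩ := key G.Vs Subset.rfl
  refine ⟨ρ, fun f => le_trans (card_le_card fun v hv => ?_) (hρ f)⟩
  obtain ⟨a1, a2⟩ := mem_filter.1 hv
  refine mem_filter.2 ⟨a1, le_trans (le_trans (card_le_card fun u hu => ?_)
    (card_image_le (f := G.src))) a2⟩
  obtain ⟨-, ⟨-, e, he, b1, b2⟩, b3⟩ := mem_filter.1 hu
  exact mem_image.2 ⟨e, mem_filter.2 ⟨he, b1, by rw [show G.src e = u from b2]; exact b3⟩, b2⟩

end MG

end Pool.Agent.P.MP_eb0bd2_lc.A
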